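import Mathlib
import Pool.Agent.MP_8b9287_co.Defs

section

/-! Sums over orderings of a finite set. -/

open Finset

namespace Pool.Agent.MP_8b9287_co

variable {α : Type} [DecidableEq α]

/-- all orderings of `X` -/
noncomputable def ords (X : Finset α) : Finset (List α) := X.toList.permutations.toFinset

theorem mem_ords {X : Finset α} {l : List α} : l ∈ ords X ↔ l.Nodup ∧ l.toFinset = X := by
  rw [ords, List.mem_toFinset, List.mem_permutations]
  constructor
  · intro h
    exact ⟨h.nodup_iff.2 X.nodup_toList, by rw [List.toFinset_eq_of_perm _ _ h, toList_toFinset]⟩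
  · rintro ⟨h1, rfl⟩
    exact (List.toFinset_toList h1).symm

theorem length_of_mem_ords {X : Finset α} {l : List α} (h : l ∈ ords X) : l.length = X.card := by
  obtain ⟨h1, rfl⟩ := mem_ords.1 h
  exact (List.toFinset_card_of_nodup h1).symm

theorem ords_empty : ords (∅ : Finset α) = {[]} := by
  ext l
  simp only [mem_ords, List.toFinset_eq_empty_iff, mem_singleton]
  exact ⟨fun h => h.2, fun h => by simp [h]⟩

theorem sum_ords_split (X : Finset α) (j : ℕ) (hj : j ≤ X.card) (F : List α → ℚ) :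
    ∑ l ∈ ords X, F l =
      ∑ I ∈ powersetCard j X, ∑ u ∈ ords I, ∑ v ∈ ords (X \ I), F (u ++ v) := by
  simp only [← Finset.sum_product']
  rw [Finset.sum_sigma']
  apply Finset.sum_nbij' (fun l => ⟨(l.take j).toFinset, (l.take j, l.drop j)⟩)
    (fun p => p.2.1 ++ p.2.2)
  · intro l hl
    have hlen := length_of_mem_ords hl
    obtain ⟨h1, rfl⟩ := mem_ords.1 hl
    have h2 : (l.take j ++ l.drop j).Nodup := by rwa [List.take_append_drop]
    rw [List.nodup_append] at h2
    simp only [mem_sigma, mem_powersetCard, mem_product, mem_ords]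
    refine ⟨⟨fun x hx => ?_, ?_⟩, ⟨h2.1, trivial⟩, h2.2.1, ?_⟩
    · simp only [List.mem_toFinset] at hx ⊢
      exact List.mem_of_mem_take hx
    · rw [List.toFinset_card_of_nodup h2.1, List.length_take]; omega
    · ext x
      simp only [List.mem_toFinset, mem_sdiff]
      constructor
      · intro hx
        exact ⟨List.mem_of_mem_drop hx, fun h => h2.2.2 x h x hx rfl⟩
      · rintro ⟨hx, hx'⟩
        rw [← List.take_append_drop j l, List.mem_append] at hx
        exact hx.resolve_left hx'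
  · rintro ⟨I, u, v⟩ hp
    simp only [mem_sigma, mem_powersetCard, mem_product, mem_ords] at hp
    obtain ⟨⟨h1, -⟩, ⟨h2, h3⟩, h4, h5⟩ := hp
    rw [mem_ords, List.nodup_append, List.toFinset_append, h3, h5]
    refine ⟨⟨h2, h4, ?_⟩, union_sdiff_of_subset h1⟩
    rintro a ha b hb rfl
    rw [← List.mem_toFinset] at ha hb
    rw [h3] at ha
    rw [h5] at hb
    exact (mem_sdiff.1 hb).2 ha
  · intro l _
    simp
  · rintro ⟨I, u, v⟩ hp
    simp only [mem_sigma, mem_powersetCard, mem_product] at hp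
    obtain ⟨⟨-, h1⟩, h2, -⟩ := hp
    have h3 : u.length = j := by rw [length_of_mem_ords h2, h1]
    subst h3
    simp [(mem_ords.1 h2).2]
  · intro l _
    simp

theorem ords_singleton (a : α) : ords ({a} : Finset α) = {[a]} := by
  ext l
  rw [mem_singleton]
  constructor
  · intro h
    have h1 := length_of_mem_ords h
    obtain ⟨b, rfl⟩ := List.length_eq_one_iff.1 (h1.trans (card_singleton a))
    have := (mem_ords.1 h).2
    simp at this
    rw [this]
  · rintro rfl
    simp [mem_ords]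

theorem sum_ords_cons (X : Finset α) (hX : X.Nonempty) (F : List α → ℚ) :
    ∑ l ∈ ords X, F l = ∑ b ∈ X, ∑ l ∈ ords (X.erase b), F (b :: l) := by
  rw [sum_ords_split X 1 (card_pos.2 hX), powersetCard_one, sum_map]
  apply Finset.sum_congr rfl
  intro b _
  simp [ords_singleton, sdiff_singleton_eq_erase]

theorem sum_ords_snoc (X : Finset α) (hX : X.Nonempty) (F : List α → ℚ) :
    ∑ l ∈ ords X, F l = ∑ b ∈ X, ∑ l ∈ ords (X.erase b), F (l ++ [b]) := by
  rw [sum_ords_split X (X.card - 1) (by omega)]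
  symm
  apply Finset.sum_bij (fun b _ => X.erase b)
  · intro b hb
    exact mem_powersetCard.2 ⟨erase_subset _ _, card_erase_of_mem hb⟩
  · intro a ha b hb h
    exact erase_injOn X ha hb h
  · intro I hI
    obtain ⟨h1, h2⟩ := mem_powersetCard.1 hI
    have h3 : (X \ I).card = 1 := by
      rw [card_sdiff_of_subset h1, h2]; have := card_pos.2 hX; omega
    obtain ⟨b, hb⟩ := card_eq_one.1 h3
    have hb' : b ∈ X \ I := by rw [hb]; exact mem_singleton_self b
    refine ⟨b, (mem_sdiff.1 hb').1, ?_⟩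
    rw [← sdiff_singleton_eq_erase, ← hb, Finset.sdiff_sdiff_eq_self h1]
  · intro b hb
    rw [sdiff_erase_self hb, ords_singleton]
    simp

variable (t : α → ℚ)

/-- the weight of an ordering -/
def wt : List α → ℚ
  | [] => 1
  | [_] => 1
  | a :: b :: l => (t a - t b)⁻¹ * wt (b :: l)

omit [DecidableEq α] in
theorem wt_append (u : List α) (a : α) (r : List α) :
    wt t (u ++ a :: r) = wt t (u ++ [a]) * wt t (a :: r) := by
  induction u with
  | nil => simp [wt]
  | cons x u ih =>
    cases u with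
    | nil => simp [wt]
    | cons y u =>
      simp only [List.cons_append, wt] at ih ⊢
      rw [ih, mul_assoc]

variable {t}

theorem partial_frac (ht : Function.Injective t) {X : Finset α} (hX : X.Nonempty) {a : α}
    (ha : a ∉ X) :
    ∑ b ∈ X, (t a - t b)⁻¹ * ∏ y ∈ X.erase b, (t b - t y)⁻¹ = ∏ y ∈ X, (t a - t y)⁻¹ := by
  have h := Lagrange.coeff_eq_sum (s := insert a X) (v := t) ht.injOn (P := 1)
    (by rw [Polynomial.degree_one, card_insert_of_notMem ha]; exact_mod_cast Nat.succ_pos _)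
  rw [card_insert_of_notMem ha, Nat.add_sub_cancel, Polynomial.coeff_one,
    if_neg (card_pos.2 hX).ne', sum_insert ha, erase_insert ha] at h
  simp only [Polynomial.eval_one, one_div] at h
  rw [prod_inv_distrib, eq_neg_of_add_eq_zero_left h.symm, ← Finset.sum_neg_distrib]
  apply Finset.sum_congr rfl
  intro b hb
  have hab : a ≠ b := fun e => ha (e ▸ hb)
  rw [erase_insert_of_ne hab, prod_insert (fun h => ha (mem_of_mem_erase h)), prod_inv_distrib,
    mul_inv, ← neg_mul, ← inv_neg, neg_sub]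

theorem star_sum (ht : Function.Injective t) (X : Finset α) {a : α} (ha : a ∉ X) :
    ∑ l ∈ ords X, wt t (a :: l) = ∏ y ∈ X, (t a - t y)⁻¹ := by
  induction X using Finset.strongInduction generalizing a with
  | H X ih =>
    rcases X.eq_empty_or_nonempty with rfl | hX
    · simp [ords_empty, wt]
    · rw [sum_ords_cons X hX, ← partial_frac ht hX ha]
      apply Finset.sum_congr rfl
      intro b hb
      simp only [wt]
      rw [← Finset.mul_sum, ih _ (erase_ssubset hb) (notMem_erase b X)]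

theorem star_sum' (ht : Function.Injective t) (X : Finset α) {a : α} (ha : a ∉ X) :
    ∑ l ∈ ords X, wt t (l ++ [a]) = ∏ y ∈ X, (t y - t a)⁻¹ := by
  induction X using Finset.strongInduction generalizing a with
  | H X ih =>
    rcases X.eq_empty_or_nonempty with rfl | hX
    · simp [ords_empty, wt]
    · have h := partial_frac (t := fun x => - t x) (neg_injective.comp ht) hX ha
      simp only [neg_sub_neg] at h
      rw [sum_ords_snoc X hX, ← h]
      apply Finset.sum_congr rfl
      intro b hb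
      have : ∀ l : List α, wt t (l ++ [b] ++ [a]) = (t b - t a)⁻¹ * wt t (l ++ [b]) := by
        intro l
        rw [List.append_assoc, List.singleton_append, wt_append]
        simp [wt, mul_comm]
      simp only [this]
      rw [← Finset.mul_sum, ih _ (erase_ssubset hb) (notMem_erase b X)]

/-- first entry lying in `Y` -/
def fo (Y : Finset α) (d : α) : List α → α
  | [] => d
  | c :: l => if c ∈ Y then c else fo Y d l

theorem tree_sum (ht : Function.Injective t) (Y : Finset α) (hY : Y.Nonempty) (d : α) (g : α → ℚ)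
    (X : Finset α) (hYX : Y ⊆ X) {a : α} (ha : a ∉ X) :
    ∑ l ∈ ords X, wt t (a :: l) * g (fo Y d l) = (∏ y ∈ X \ Y, (t a - t y)⁻¹) *
      ∑ b ∈ Y, g b * ((t a - t b)⁻¹ * ∏ z ∈ Y.erase b, (t b - t z)⁻¹) := by
  induction X using Finset.strongInduction generalizing a with
  | H X ih =>
    have hX : X.Nonempty := hY.mono hYX
    rw [sum_ords_cons X hX, ← sum_sdiff hYX]
    have e1 : ∀ c ∈ X \ Y, ∑ l ∈ ords (X.erase c), wt t (a :: c :: l) * g (fo Y d (c :: l)) =
        ∑ b ∈ Y, (g b * ∏ z ∈ Y.erase b, (t b - t z)⁻¹) * ((t a - t c)⁻¹ *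
          ((t c - t b)⁻¹ * ∏ y ∈ (X \ Y).erase c, (t c - t y)⁻¹)) := by
      intro c hc
      obtain ⟨h1, h2⟩ := mem_sdiff.1 hc
      simp only [wt, fo, if_neg h2, mul_assoc]
      rw [← Finset.mul_sum, ih _ (erase_ssubset h1)
        (fun y hy => mem_erase.2 ⟨fun e => h2 (e ▸ hy), hYX hy⟩) (notMem_erase c X),
        erase_sdiff_comm, Finset.mul_sum, Finset.mul_sum]
      exact Finset.sum_congr rfl fun b _ => by ring
    have e2 : ∀ c ∈ Y, ∑ l ∈ ords (X.erase c), wt t (a :: c :: l) * g (fo Y d (c :: l)) =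
        (g c * ∏ z ∈ Y.erase c, (t c - t z)⁻¹) * ((t a - t c)⁻¹ *
          ∏ y ∈ X \ Y, (t c - t y)⁻¹) := by
      intro c hc
      simp only [wt, fo, if_pos hc]
      rw [← Finset.sum_mul, ← Finset.mul_sum, star_sum ht _ (notMem_erase c X),
        ← prod_sdiff (erase_subset_erase c hYX)]
      have : X.erase c \ Y.erase c = X \ Y := by
        ext x
        simp only [mem_sdiff, mem_erase]
        constructor
        · rintro ⟨⟨h1, h2⟩, h3⟩
          exact ⟨h2, fun h => h3 ⟨h1, h⟩⟩
        · rintro ⟨h1, h2⟩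
          exact ⟨⟨fun e => h2 (e ▸ hc), h1⟩, fun h => h2 h.2⟩
      rw [this]; ring
    rw [Finset.sum_congr rfl e1, Finset.sum_congr rfl e2, Finset.sum_comm, ← sum_add_distrib,
      Finset.mul_sum]
    apply Finset.sum_congr rfl
    intro b hb
    have hb' : b ∉ X \ Y := fun h => (mem_sdiff.1 h).2 hb
    have h := partial_frac ht (X := insert b (X \ Y)) (insert_nonempty _ _) (a := a) (by
      rw [mem_insert, not_or]
      exact ⟨fun e => ha (e ▸ hYX hb), fun h => ha (mem_sdiff.1 h).1⟩)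
    rw [sum_insert hb', prod_insert hb', erase_insert hb'] at h
    have e3 : ∑ c ∈ X \ Y, (t a - t c)⁻¹ * ∏ y ∈ (insert b (X \ Y)).erase c, (t c - t y)⁻¹ =
        ∑ c ∈ X \ Y, (t a - t c)⁻¹ * ((t c - t b)⁻¹ * ∏ y ∈ (X \ Y).erase c, (t c - t y)⁻¹) := by
      apply Finset.sum_congr rfl
      intro c hc
      rw [erase_insert_of_ne (fun e : b = c => hb' (e ▸ hc)),
        prod_insert (fun h => hb' (mem_of_mem_erase h))]
    rw [e3] at h
    rw [← Finset.mul_sum, ← mul_add, add_comm, h]
    ring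

omit [DecidableEq α] in
theorem wt_ofFn (t : α → ℚ) (N : ℕ) (f : Fin (N + 1) → α) :
    wt t (List.ofFn f) = (∏ i : Fin N, (t (f i.castSucc) - t (f i.succ)))⁻¹ := by
  induction N with
  | zero => simp [wt]
  | succ N ih =>
    have := ih (fun i => f i.succ)
    rw [List.ofFn_succ] at this
    rw [List.ofFn_succ, List.ofFn_succ, wt, this, Fin.prod_univ_succ, mul_inv]
    rfl

theorem sum_perm_eq {n : ℕ} (F : List (Fin n) → ℚ) :
    ∑ σ : Equiv.Perm (Fin n), F (List.ofFn σ) = ∑ l ∈ ords univ, F l := by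
  apply Finset.sum_bij (fun (σ : Equiv.Perm (Fin n)) _ => List.ofFn σ)
  · intro σ _
    rw [mem_ords]
    refine ⟨List.nodup_ofFn.2 σ.injective, ?_⟩
    ext x
    simp only [List.mem_toFinset, List.mem_ofFn, mem_univ, iff_true]
    exact σ.surjective x
  · intro σ _ τ _ h
    exact Equiv.coe_fn_injective (List.ofFn_injective h)
  · intro l hl
    have h1 : l.length = n := by simpa using length_of_mem_ords hl
    have h2 : Function.Injective l.get := List.nodup_iff_injective_get.1 (mem_ords.1 hl).1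
    have h3 : Function.Injective (fun i : Fin n => l.get (Fin.cast h1.symm i)) :=
      h2.comp (Fin.cast_injective _)
    refine ⟨Equiv.ofBijective _ (Finite.injective_iff_bijective.1 h3), mem_univ _, ?_⟩
    apply List.ext_get (by simp [h1])
    intro i _ _
    simp
  · intro σ _
    rfl

end Pool.Agent.MP_8b9287_co

end

section

/-! Jacobi-Trudi determinants. -/

open Finset

namespace Pool.Agent.MP_8b9287_co

variable {R : Type} [CommRing R]

/-- generating function of complete homogeneous symmetric polynomials -/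
noncomputable def Hs (μ : Multiset R) : PowerSeries R :=
  (μ.map fun x => PowerSeries.mk fun j => x ^ j).prod

/-- complete homogeneous symmetric polynomials -/
noncomputable def hZ (μ : Multiset R) (m : ℤ) : R :=
  if 0 ≤ m then PowerSeries.coeff m.toNat (Hs μ) else 0

theorem hZ_neg (μ : Multiset R) {m : ℤ} (h : m < 0) : hZ μ m = 0 := if_neg (not_le.2 h)

theorem geom_eq (x : R) : (PowerSeries.mk fun j => x ^ j) =
    1 + PowerSeries.C x * (PowerSeries.X * PowerSeries.mk fun j => x ^ j) := by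
  ext n
  cases n with
  | zero => simp
  | succ n => simp [PowerSeries.coeff_succ_X_mul, PowerSeries.coeff_one, pow_succ']

theorem Hs_cons (x : R) (μ : Multiset R) :
    Hs (x ::ₘ μ) = Hs μ + PowerSeries.C x * (PowerSeries.X * Hs (x ::ₘ μ)) := by
  simp only [Hs, Multiset.map_cons, Multiset.prod_cons]
  nth_rewrite 1 [geom_eq x]
  ring

theorem hZ_cons (x : R) (μ : Multiset R) (m : ℤ) :
    hZ (x ::ₘ μ) m = hZ μ m + x * hZ (x ::ₘ μ) (m - 1) := by
  rcases lt_trichotomy m 0 with h | rfl | h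
  · rw [hZ_neg _ h, hZ_neg _ h, hZ_neg _ (by omega)]; simp
  · rw [hZ_neg _ (m := 0 - 1) (by omega)]
    simp only [hZ, le_refl, if_true, Int.toNat_zero]
    rw [Hs_cons]; simp
  · obtain ⟨j, rfl⟩ : ∃ j : ℕ, m = j + 1 := ⟨(m - 1).toNat, by omega⟩
    have e1 : ((j : ℤ) + 1).toNat = j + 1 := by omega
    have e2 : ((j : ℤ) + 1 - 1).toNat = j := by omega
    simp only [hZ, if_pos h.le, if_pos (show (0 : ℤ) ≤ j + 1 - 1 by omega), e1, e2]
    nth_rewrite 1 [Hs_cons]
    simp [PowerSeries.coeff_succ_X_mul]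

theorem hZ_zero_cons (μ : Multiset R) (m : ℤ) : hZ (0 ::ₘ μ) m = hZ μ m := by
  rw [hZ_cons]; simp

theorem hZ_replicate_zero (j : ℕ) (μ : Multiset R) (m : ℤ) :
    hZ (Multiset.replicate j 0 + μ) m = hZ μ m := by
  induction j with
  | zero => simp
  | succ j ih => rw [Multiset.replicate_succ, Multiset.cons_add, hZ_zero_cons, ih]

theorem hZ_singleton (x : R) (m : ℕ) : hZ (x ::ₘ 0) m = x ^ m := by
  simp [hZ, Hs]

theorem map_hZ {R' : Type} [CommRing R'] (f : R →+* R') (μ : Multiset R) (m : ℤ) :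
    f (hZ μ m) = hZ (μ.map f) m := by
  unfold hZ
  split_ifs
  · rw [← PowerSeries.coeff_map, Hs, Hs, map_multiset_prod, Multiset.map_map, Multiset.map_map]
    congr 3
    ext x n
    simp
  · exact map_zero f

variable {k : ℕ}

/-- Jacobi-Trudi determinant -/
noncomputable def SS (ν : Fin k → ℤ) (μ : Multiset R) : R :=
  Matrix.det (Matrix.of fun i j : Fin k => hZ μ (ν i - (i : ℕ) + (j : ℕ)))

theorem map_SS {R' : Type} [CommRing R'] (f : R →+* R') (ν : Fin k → ℤ) (μ : Multiset R) :
    f (SS ν μ) = SS ν (μ.map f) := by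
  rw [SS, RingHom.map_det, SS]
  congr 1
  ext i j
  simp [map_hZ]

theorem SS_replicate_zero (ν : Fin k → ℤ) (j : ℕ) (μ : Multiset R) :
    SS ν (Multiset.replicate j 0 + μ) = SS ν μ := by
  simp only [SS, hZ_replicate_zero]

/-- mixed Jacobi-Trudi matrix -/
noncomputable def MM (ν : Fin k → ℤ) (μ : Multiset R) (x : R) (ρ : ℕ) : Matrix (Fin k) (Fin k) R :=
  Matrix.of fun i j : Fin k => if (i : ℕ) < ρ then hZ μ (ν i - (i : ℕ) + (j : ℕ))
    else hZ (x ::ₘ μ) (ν i - (i : ℕ) + (j : ℕ))

theorem MM_zero (ν : Fin k → ℤ) (μ : Multiset R) (x : R) : (MM ν μ x 0).det = SS ν (x ::ₘ μ) := by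
  simp [MM, SS]

theorem MM_top (ν : Fin k → ℤ) (μ : Multiset R) (x : R) : (MM ν μ x k).det = SS ν μ := by
  simp [MM, SS]

/-- remove a box -/
def dec (ν : Fin k → ℤ) (ρ : Fin k) : Fin k → ℤ := Function.update ν ρ (ν ρ - 1)

theorem dec_self (ν : Fin k → ℤ) (ρ : Fin k) : dec ν ρ ρ = ν ρ - 1 := by simp [dec]

theorem dec_ne (ν : Fin k → ℤ) {ρ i : Fin k} (h : i ≠ ρ) : dec ν ρ i = ν i := by simp [dec, h]

theorem sum_dec (ν : Fin k → ℤ) (ρ : Fin k) : ∑ i, dec ν ρ i = ∑ i, ν i - 1 := by
  rw [← Finset.add_sum_erase univ _ (mem_univ ρ), ← Finset.add_sum_erase univ ν (mem_univ ρ),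
    dec_self, Finset.sum_congr rfl (fun i hi => dec_ne ν (ne_of_mem_erase hi))]
  ring

theorem MM_rec (ν : Fin k → ℤ) (μ : Multiset R) (x : R) (ρ : Fin k) :
    (MM ν μ x ρ).det = (MM ν μ x (ρ + 1)).det + x * (MM (dec ν ρ) μ x ρ).det := by
  have e1 : MM ν μ x ρ = (MM ν μ x ρ).updateRow ρ
      (MM ν μ x (ρ + 1) ρ + x • MM (dec ν ρ) μ x ρ ρ) := by
    ext i j
    rw [Matrix.updateRow_apply]
    split_ifs with h
    · subst h
      simp only [MM, Matrix.of_apply, lt_irrefl, if_false, Pi.add_apply, Nat.lt_succ_self, if_true,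
        Pi.smul_apply, smul_eq_mul, dec_self]
      rw [hZ_cons]
      congr 3
      ring
    · rfl
  have e2 : (MM ν μ x ρ).updateRow ρ (MM ν μ x (ρ + 1) ρ) = MM ν μ x (ρ + 1) := by
    ext i j
    rw [Matrix.updateRow_apply]
    split_ifs with h
    · rw [h]
    · have : (i : ℕ) ≠ ρ := fun e => h (Fin.ext e)
      have h2 : ((i : ℕ) < ρ) ↔ ((i : ℕ) < ρ + 1) := by omega
      simp only [MM, Matrix.of_apply, h2]
  have e3 : (MM ν μ x ρ).updateRow ρ (MM (dec ν ρ) μ x ρ ρ) = MM (dec ν ρ) μ x ρ := by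
    ext i j
    rw [Matrix.updateRow_apply]
    split_ifs with h
    · rw [h]
    · simp only [MM, Matrix.of_apply, dec_ne ν h]
  rw [e1, Matrix.det_updateRow_add, Matrix.det_updateRow_smul, e2, e3]

/-- partitions -/
def Part (ν : Fin k → ℤ) : Prop := Antitone ν ∧ ∀ i, 0 ≤ ν i

theorem MM_vanish (ν : Fin k → ℤ) (hν : Part ν) (μ : Multiset R) (x : R) (ρ : Fin k)
    (h : ¬ Part (dec ν ρ)) : (MM (dec ν ρ) μ x ρ).det = 0 := by
  by_cases h1 : (ρ : ℕ) + 1 < k
  · let ρ' : Fin k := ⟨ρ + 1, h1⟩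
    have hne : ρ' ≠ ρ := fun e => by have := congrArg Fin.val e; simp [ρ'] at this
    have h2 : ν ρ' = ν ρ := by
      by_contra hc
      have h3 : ν ρ' ≤ ν ρ - 1 := by
        have := hν.1 (show ρ ≤ ρ' from Fin.le_def.2 (Nat.le_succ _))
        omega
      apply h
      constructor
      · intro i j hij
        by_cases hi : i = ρ <;> by_cases hj : j = ρ
        · rw [hi, hj]
        · rw [hi, dec_self, dec_ne ν hj]
          have : ρ' ≤ j := by
            rw [hi] at hij
            have h4 : (ρ : ℕ) ≤ j := hij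
            have h5 : (j : ℕ) ≠ ρ := fun e => hj (Fin.ext e)
            exact Fin.le_def.2 (by simp only [ρ']; omega)
          exact (hν.1 this).trans h3
        · rw [hj, dec_self, dec_ne ν hi]
          have := hν.1 hij
          rw [hj] at this
          omega
        · rw [dec_ne ν hi, dec_ne ν hj]; exact hν.1 hij
      · intro i
        by_cases hi : i = ρ
        · rw [hi, dec_self]; exact (hν.2 ρ').trans h3
        · rw [dec_ne ν hi]; exact hν.2 i
    apply Matrix.det_zero_of_row_eq hne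
    ext j
    simp only [MM, Matrix.of_apply, lt_irrefl, if_false, dec_self, dec_ne ν hne, h2, ρ']
    rw [if_neg (by omega)]
    congr 1
    push_cast
    ring
  · have h2 : ν ρ = 0 := by
      by_contra hc
      have h3 := hν.2 ρ
      apply h
      constructor
      · intro i j hij
        by_cases hi : i = ρ <;> by_cases hj : j = ρ
        · rw [hi, hj]
        · exfalso
          rw [hi] at hij
          have h4 : (ρ : ℕ) ≤ j := hij
          have h5 : (j : ℕ) ≠ ρ := fun e => hj (Fin.ext e)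
          have := j.2
          omega
        · rw [hj, dec_self, dec_ne ν hi]
          have := hν.1 hij
          rw [hj] at this
          omega
        · rw [dec_ne ν hi, dec_ne ν hj]; exact hν.1 hij
      · intro i
        by_cases hi : i = ρ
        · rw [hi, dec_self]; omega
        · rw [dec_ne ν hi]; exact hν.2 i
    apply Matrix.det_eq_zero_of_row_eq_zero ρ
    intro j
    simp only [MM, Matrix.of_apply, lt_irrefl, if_false, dec_self, h2]
    apply hZ_neg
    have := j.2
    omega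

theorem SS_single_row (L : ℕ) (x : R) :
    SS (Fin.cons (L : ℤ) (0 : Fin k → ℤ) : Fin (k + 1) → ℤ) (x ::ₘ 0) = x ^ L := by
  rw [SS, Matrix.det_of_isUpperTriangular, Fin.prod_univ_succ]
  · simp only [Matrix.of_apply, Fin.cons_zero, Fin.cons_succ, Pi.zero_apply, sub_add_cancel,
      hZ_singleton]
    have : hZ ({x} : Multiset R) 0 = 1 := by simpa using hZ_singleton x 0
    simp [this]
  · intro i j hij
    have hij' : (j : ℕ) < i := hij
    rcases Fin.eq_zero_or_eq_succ i with rfl | ⟨i', rfl⟩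
    · simp at hij'
    · simp only [Matrix.of_apply, Fin.cons_succ, Pi.zero_apply]
      apply hZ_neg
      omega

theorem SS_two_rows (ν : Fin (k + 2) → ℤ) (h0 : ν 1 ≤ ν 0) (h1 : 1 ≤ ν 1) (x : R) :
    SS ν (x ::ₘ 0) = 0 := by
  let A : Matrix (Fin (k + 2)) (Fin (k + 2)) R :=
    Matrix.of fun i j => hZ (x ::ₘ 0) (ν i - (i : ℕ) + (j : ℕ))
  have e : A = A.updateRow 0 (x ^ (ν 0 - ν 1 + 1).toNat • A 1) := by
    ext i j
    rw [Matrix.updateRow_apply]
    split_ifs with h
    · subst h
      obtain ⟨a, ha⟩ : ∃ a : ℕ, ν 0 - ν 1 + 1 = a := ⟨(ν 0 - ν 1 + 1).toNat, by omega⟩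
      obtain ⟨b, hb⟩ : ∃ b : ℕ, ν 1 - 1 = b := ⟨(ν 1 - 1).toNat, by omega⟩
      have e1 : ν 0 - ((0 : Fin (k + 2)) : ℕ) + (j : ℕ) = ((a + (b + j) : ℕ) : ℤ) := by
        simp only [Fin.val_zero]; push_cast; omega
      have e2 : ν 1 - ((1 : Fin (k + 2)) : ℕ) + (j : ℕ) = ((b + j : ℕ) : ℤ) := by
        simp only [Fin.val_one]; push_cast; omega
      simp only [A, Matrix.of_apply, Pi.smul_apply, smul_eq_mul, e1, e2, ha, hZ_singleton,
        Int.toNat_natCast, pow_add]
    · rfl
  change A.det = 0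
  rw [e, Matrix.det_updateRow_smul, Matrix.det_updateRow_eq_zero (by simp), mul_zero]

end Pool.Agent.MP_8b9287_co

end

section

/-! A packing inequality. -/

open Finset

namespace Pool.Agent.MP_8b9287_co

/-- binomial coefficient `C(s+a, a)`, zero for negative `s` -/
def M2 (a : ℕ) (s : ℤ) : ℕ := if 0 ≤ s then (s.toNat + a).choose a else 0

theorem M2_neg (a : ℕ) {s : ℤ} (h : s < 0) : M2 a s = 0 := if_neg (not_le.2 h)

theorem M2_zero (s : ℤ) : M2 0 s = if 0 ≤ s then 1 else 0 := by simp [M2]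

theorem M2_succ (a : ℕ) (s : ℤ) : M2 (a + 1) s = M2 a s + M2 (a + 1) (s - 1) := by
  rcases lt_trichotomy s 0 with h | rfl | h
  · rw [M2_neg _ h, M2_neg _ h, M2_neg _ (by omega)]
  · rw [M2_neg _ (s := 0 - 1) (by omega)]; simp [M2]
  · obtain ⟨j, rfl⟩ : ∃ j : ℕ, s = j + 1 := ⟨(s - 1).toNat, by omega⟩
    have e1 : ((j : ℤ) + 1).toNat = j + 1 := by omega
    have e2 : ((j : ℤ) + 1 - 1).toNat = j := by omega
    simp only [M2, if_pos h.le, if_pos (show (0 : ℤ) ≤ j + 1 - 1 by omega), e1, e2]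
    rw [show j + 1 + (a + 1) = (j + 1 + a) + 1 by ring, Nat.choose_succ_succ,
      show j + (a + 1) = j + 1 + a by ring]

theorem pack {α ι : Type} [DecidableEq α] [DecidableEq ι] (m : ℤ) (hm : 0 ≤ m) (n : ℕ) :
    ∀ (E : Finset α) (_ : E.card = n) (a : ℕ) (T : Finset ι) (H : ι → Finset α)
      (_ : ∀ i ∈ T, H i ⊆ E ∧ (H i).card < E.card)
      (_ : ∀ i ∈ T, ∀ j ∈ T, i ≠ j → (H i ∩ H j).card + 1 ≤ a),
      ∑ i ∈ T, M2 a ((H i).card - (a + 1) - m) ≤ M2 a (E.card - 1 - (a + 1) - m) := by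
  induction n with
  | zero =>
    intro E hE a T H h1 _
    rw [Finset.sum_eq_zero (fun i hi => by have := (h1 i hi).2; omega)]
    exact Nat.zero_le _
  | succ n ih =>
    intro E hE a T H h1 h2
    by_cases hb : ∃ i ∈ T, (H i).card + 1 = E.card
    · obtain ⟨i, hi, hc⟩ := hb
      rw [Finset.sum_eq_single_of_mem i hi]
      · apply le_of_eq; congr 1; omega
      · intro j hj hji
        apply M2_neg
        have h3 := h2 j hj i hi hji
        have h4 := card_union_add_card_inter (H j) (H i)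
        have h5 := card_le_card (union_subset (h1 j hj).1 (h1 i hi).1)
        omega
    · push Not at hb
      cases a with
      | zero =>
        rcases T.eq_empty_or_nonempty with rfl | ⟨i, hi⟩
        · simp
        · rw [Finset.sum_eq_single_of_mem i hi]
          · have := (h1 i hi).2
            simp only [M2_zero]
            split_ifs <;> omega
          · intro j hj hji
            have := h2 j hj i hi hji
            omega
      | succ a =>
        obtain ⟨e, he⟩ : E.Nonempty := card_pos.1 (by omega)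
        have hE' : (E.erase e).card = n := by rw [card_erase_of_mem he]; omega
        have h3 : ∀ i ∈ T, (H i).erase e ⊆ E.erase e ∧ ((H i).erase e).card < (E.erase e).card := by
          intro i hi
          refine ⟨erase_subset_erase e (h1 i hi).1, ?_⟩
          have := card_erase_le (s := H i) (a := e)
          have := hb i hi
          have := (h1 i hi).2
          omega
        have A := ih (E.erase e) hE' (a + 1) T (fun i => (H i).erase e) h3 (by
          intro i hi j hj hij
          have := card_le_card (inter_subset_inter (erase_subset e (H i)) (erase_subset e (H j)))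
          have := h2 i hi j hj hij
          omega)
        have B := ih (E.erase e) hE' a (T.filter fun i => e ∈ H i) (fun i => (H i).erase e)
          (fun i hi => h3 i (mem_filter.1 hi).1) (by
            intro i hi j hj hij
            obtain ⟨hi, hi'⟩ := mem_filter.1 hi
            obtain ⟨hj, hj'⟩ := mem_filter.1 hj
            have h4 : (H i).erase e ∩ (H j).erase e = (H i ∩ H j).erase e := by
              ext x; simp only [mem_inter, mem_erase]; tauto
            have h5 := card_erase_add_one (mem_inter.2 ⟨hi', hj'⟩)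
            have := h2 i hi j hj hij
            simp only [h4]
            omega)
        rw [Finset.sum_filter] at B
        rw [M2_succ]
        have e1 : ((E.card : ℤ) - 1 - ((a + 1 : ℕ) + 1) - m) = (E.erase e).card - 1 - (a + 1) - m := by
          rw [hE', hE]; push_cast; ring
        have e2 : ((E.card : ℤ) - 1 - ((a + 1 : ℕ) + 1) - m - 1) =
            (E.erase e).card - 1 - ((a + 1 : ℕ) + 1) - m := by
          rw [hE', hE]; push_cast; ring
        rw [e2, e1]
        refine le_trans (le_of_eq ?_) (add_le_add B A)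
        rw [← sum_add_distrib]
        apply Finset.sum_congr rfl
        intro i _
        split_ifs with h
        · have := card_erase_add_one h
          rw [M2_succ]
          congr 2 <;> (push_cast; omega)
        · rw [erase_eq_of_notMem h, zero_add]

end Pool.Agent.MP_8b9287_co

end

section

/-! The combinatorial core. -/

open Finset

namespace Pool.Agent.MP_8b9287_co

open PowerSeries

/-- sum of the coefficients in degree at least `r` -/
noncomputable def tau (r : ℕ) : Polynomial ℚ →ₗ[ℚ] ℚ :=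
  Polynomial.lsum fun q => if r ≤ q then LinearMap.id else 0

theorem tau_monomial (r q : ℕ) (c : ℚ) :
    tau r (Polynomial.monomial q c) = if r ≤ q then c else 0 := by
  rw [tau, Polynomial.lsum_apply, Polynomial.sum_monomial_index _ _ (by simp)]
  split_ifs <;> simp

theorem tau_X_pow (r q : ℕ) : tau r (Polynomial.X ^ q) = if r ≤ q then 1 else 0 := by
  rw [← Polynomial.monomial_one_right_eq_X_pow, tau_monomial]

variable {k : ℕ}

/-- specialised Schur numbers -/
noncomputable def cc (r : ℕ) (ν : Fin k → ℤ) (i : ℕ) : ℚ :=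
  tau r (SS ν (Polynomial.X ::ₘ Multiset.replicate i 1))

/-- generating function of the mixed determinants -/
noncomputable def BB (r : ℕ) (ν : Fin k → ℤ) (ρ : ℕ) : PowerSeries ℚ :=
  PowerSeries.mk fun i => tau r (MM ν (Polynomial.X ::ₘ Multiset.replicate i 1) 1 ρ).det

theorem BB_top (r : ℕ) (ν : Fin k → ℤ) : BB r ν k = PowerSeries.mk (cc r ν) := by
  ext i
  simp only [BB, coeff_mk, MM_top, cc]

theorem BB_top_eq (r : ℕ) (ν : Fin k → ℤ) : BB r ν k = C (cc r ν 0) + X * BB r ν 0 := by
  rw [BB_top]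
  ext i
  cases i with
  | zero => simp
  | succ i =>
    simp only [BB, coeff_mk, map_add, coeff_succ_X_mul, MM_zero, cc, coeff_succ_C, zero_add,
      Multiset.replicate_succ]
    rw [Multiset.cons_swap]

theorem BB_rec (r : ℕ) (ν : Fin k → ℤ) (ρ : Fin k) :
    BB r ν ρ = BB r ν (ρ + 1) + BB r (dec ν ρ) ρ := by
  ext i
  simp only [BB, coeff_mk, map_add]
  rw [MM_rec, one_mul, map_add]

theorem BB_vanish (r : ℕ) (ν : Fin k → ℤ) (hν : Part ν) (ρ : Fin k) (h : ¬ Part (dec ν ρ)) :
    BB r (dec ν ρ) ρ = 0 := by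
  ext i
  simp only [BB, coeff_mk, MM_vanish ν hν _ _ ρ h, map_zero]

theorem BB_sum (r : ℕ) (ν : Fin k → ℤ) (ρ : ℕ) (hρ : ρ ≤ k) :
    BB r ν 0 = BB r ν ρ + ∑ j : Fin k, if (j : ℕ) < ρ then BB r (dec ν j) j else 0 := by
  induction ρ with
  | zero => simp
  | succ ρ ih =>
    rw [ih (by omega)]
    have h := BB_rec r ν ⟨ρ, hρ⟩
    simp only at h
    rw [h, add_assoc]
    congr 1
    rw [← Finset.add_sum_erase univ _ (mem_univ (⟨ρ, hρ⟩ : Fin k)),
      ← Finset.add_sum_erase univ _ (mem_univ (⟨ρ, hρ⟩ : Fin k))]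
    simp only [lt_irrefl, if_false, Nat.lt_succ_self, if_true, zero_add]
    congr 1
    apply Finset.sum_congr rfl
    intro j hj
    have : (j : ℕ) ≠ ρ := fun e => ne_of_mem_erase hj (Fin.ext e)
    have h2 : ((j : ℕ) < ρ) ↔ ((j : ℕ) < ρ + 1) := by omega
    simp only [h2]

theorem BB_main (r : ℕ) (ν : Fin k → ℤ) (ρ : ℕ) (hρ : ρ ≤ k) :
    (1 - X) * BB r ν ρ = C (cc r ν 0) +
      ∑ j : Fin k, (if (j : ℕ) < ρ then X else 1) * BB r (dec ν j) j := by
  have h1 := BB_sum r ν ρ hρ
  have h2 := BB_sum r ν k le_rfl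
  simp only [Fin.is_lt, if_true] at h2
  rw [BB_top_eq] at h2
  have h3 : ∑ j : Fin k, (if (j : ℕ) < ρ then X else 1) * BB r (dec ν j) j =
      ∑ j : Fin k, BB r (dec ν j) j -
        (1 - X) * ∑ j : Fin k, if (j : ℕ) < ρ then BB r (dec ν j) j else 0 := by
    rw [Finset.mul_sum, ← Finset.sum_sub_distrib]
    apply Finset.sum_congr rfl
    intro j _
    split_ifs <;> ring
  rw [h3]
  linear_combination h2 - (1 - X) * h1

/-- polynomial of degree at most `a` with coefficient `v` in degree `a` -/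
def Top (Q : PowerSeries ℚ) (a : ℕ) (v : ℚ) : Prop :=
  (∀ b, a < b → coeff b Q = 0) ∧ coeff a Q = v

theorem Top.add {Q Q' : PowerSeries ℚ} {a : ℕ} {v v' : ℚ} (h : Top Q a v) (h' : Top Q' a v') :
    Top (Q + Q') a (v + v') :=
  ⟨fun b hb => by rw [map_add, h.1 b hb, h'.1 b hb, add_zero], by rw [map_add, h.2, h'.2]⟩

theorem Top.zero (a : ℕ) : Top 0 a 0 := ⟨fun _ _ => by simp, by simp⟩

theorem Top.sum {ι : Type} (s : Finset ι) {Q : ι → PowerSeries ℚ} {a : ℕ} {v : ι → ℚ}
    (h : ∀ i ∈ s, Top (Q i) a (v i)) : Top (∑ i ∈ s, Q i) a (∑ i ∈ s, v i) :=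
  ⟨fun b hb => by rw [map_sum]; exact Finset.sum_eq_zero fun i hi => (h i hi).1 b hb,
    by rw [map_sum]; exact Finset.sum_congr rfl fun i hi => (h i hi).2⟩

theorem Top.X_mul {Q : PowerSeries ℚ} {a : ℕ} {v : ℚ} (h : Top Q a v) : Top (X * Q) (a + 1) v := by
  refine ⟨fun b hb => ?_, by rw [coeff_succ_X_mul, h.2]⟩
  obtain ⟨b, rfl⟩ : ∃ c, b = c + 1 := ⟨b - 1, by omega⟩
  rw [coeff_succ_X_mul, h.1 b (by omega)]

theorem Top.lower {Q : PowerSeries ℚ} {a : ℕ} {v : ℚ} (h : Top Q a v) : Top Q (a + 1) 0 :=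
  ⟨fun b hb => h.1 b (by omega), h.1 _ (by omega)⟩

/-- the geometric series -/
noncomputable def om : PowerSeries ℚ := PowerSeries.mk 1

theorem om_mul : om * (1 - X) = 1 := PowerSeries.mk_one_mul_one_sub_eq_one ℚ

/-- normalised generating function -/
noncomputable def NB (r s : ℕ) (ν : Fin k → ℤ) (ρ : ℕ) : PowerSeries ℚ :=
  (1 - X) ^ s * om ^ r * BB r ν ρ

theorem NB_main (r s : ℕ) (ν : Fin k → ℤ) (ρ : ℕ) (hρ : ρ ≤ k) :
    NB r (s + 1) ν ρ = (1 - X) ^ s * om ^ r * C (cc r ν 0) +
      ∑ j : Fin k, (if (j : ℕ) < ρ then X else 1) * NB r s (dec ν j) j := by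
  have h := BB_main r ν ρ hρ
  have : ∑ j : Fin k, (if (j : ℕ) < ρ then X else 1) * NB r s (dec ν j) j =
      (1 - X) ^ s * om ^ r * ∑ j : Fin k, (if (j : ℕ) < ρ then X else 1) * BB r (dec ν j) j := by
    rw [Finset.mul_sum]
    exact Finset.sum_congr rfl fun j _ => by rw [NB]; ring
  rw [this, NB]
  linear_combination (1 - X) ^ s * om ^ r * h

theorem X_mul_NB (r s : ℕ) (ν : Fin k → ℤ) :
    X * NB r s ν 0 = NB r s ν k - (1 - X) ^ s * om ^ r * C (cc r ν 0) := by
  rw [NB, NB, BB_top_eq]; ring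

theorem dec_cons_zero (L : ℤ) (μ : Fin k → ℤ) :
    dec (Fin.cons L μ : Fin (k + 1) → ℤ) 0 = Fin.cons (L - 1) μ := by
  simp [dec]

theorem dec_cons_succ (L : ℤ) (μ : Fin k → ℤ) (j : Fin k) :
    dec (Fin.cons L μ : Fin (k + 1) → ℤ) j.succ = Fin.cons L (dec μ j) := by
  simp [dec, Fin.cons_update]

theorem part_cons {L : ℤ} {μ : Fin k → ℤ} :
    Part (Fin.cons L μ : Fin (k + 1) → ℤ) ↔ Part μ ∧ 0 ≤ L ∧ ∀ i, μ i ≤ L := by
  constructor
  · rintro ⟨h1, h2⟩
    refine ⟨⟨fun i j hij => ?_, fun i => by simpa using h2 i.succ⟩, by simpa using h2 0, fun i => ?_⟩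
    · simpa using h1 (Fin.succ_le_succ_iff.2 hij)
    · simpa using h1 (Fin.zero_le i.succ)
  · rintro ⟨⟨h1, h2⟩, h3, h4⟩
    constructor
    · intro i j hij
      rcases Fin.eq_zero_or_eq_succ i with rfl | ⟨i, rfl⟩ <;>
        rcases Fin.eq_zero_or_eq_succ j with rfl | ⟨j, rfl⟩
      · exact le_rfl
      · simpa using h4 j
      · simp at hij
      · simpa using h1 (Fin.succ_le_succ_iff.1 hij)
    · intro i
      rcases Fin.eq_zero_or_eq_succ i with rfl | ⟨i, rfl⟩
      · simpa using h3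
      · simpa using h2 i

theorem NB_cons (r s : ℕ) (L : ℤ) (μ : Fin k → ℤ) (ρ : ℕ) (h1 : 1 ≤ ρ) (hρ : ρ ≤ k + 1) :
    NB r (s + 1) (Fin.cons L μ : Fin (k + 1) → ℤ) ρ =
      (1 - X) ^ s * om ^ r * C (cc r (Fin.cons L μ : Fin (k + 1) → ℤ) 0) +
      X * NB r s (Fin.cons (L - 1) μ : Fin (k + 1) → ℤ) 0 +
      ∑ j : Fin k, (if (j : ℕ) + 1 < ρ then X else 1) *
        NB r s (Fin.cons L (dec μ j) : Fin (k + 1) → ℤ) (j + 1) := by
  rw [NB_main r s _ ρ hρ, Fin.sum_univ_succ, dec_cons_zero, add_assoc]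
  simp only [dec_cons_succ, Fin.val_zero, Fin.val_succ]
  rw [if_pos (by omega)]

theorem cc_single (r L : ℕ) :
    cc r (Fin.cons (L : ℤ) (0 : Fin k → ℤ) : Fin (k + 1) → ℤ) 0 = if r ≤ L then 1 else 0 := by
  rw [cc, Multiset.replicate_zero, SS_single_row, tau_X_pow]

theorem NB_single (r L : ℕ) (ρ : ℕ) (h1 : 1 ≤ ρ) (hρ : ρ ≤ k + 1) :
    NB r (L + 1) (Fin.cons (L : ℤ) (0 : Fin k → ℤ) : Fin (k + 1) → ℤ) ρ =
      if r ≤ L then 1 else 0 := by
  have hz : Part (0 : Fin k → ℤ) := ⟨fun _ _ _ => le_rfl, fun _ => le_rfl⟩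
  have hv : ∀ (L s : ℕ) (j : Fin k),
      NB r s (Fin.cons (L : ℤ) (dec 0 j) : Fin (k + 1) → ℤ) (j + 1) = 0 := by
    intro L s j
    have := BB_vanish r (Fin.cons (L : ℤ) (0 : Fin k → ℤ) : Fin (k + 1) → ℤ)
      (part_cons.2 ⟨hz, by omega, fun _ => by simp⟩) j.succ (by
        rw [dec_cons_succ, part_cons]
        rintro ⟨⟨-, h⟩, -⟩
        have := h j
        rw [dec_self] at this
        simp at this)
    rw [dec_cons_succ, Fin.val_succ] at this
    rw [NB, this, mul_zero]
  induction L generalizing ρ with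
  | zero =>
    rw [NB_cons r 0 _ _ ρ h1 hρ, cc_single]
    have := BB_vanish r (Fin.cons ((0 : ℕ) : ℤ) (0 : Fin k → ℤ) : Fin (k + 1) → ℤ)
      (part_cons.2 ⟨hz, by omega, fun _ => by simp⟩) 0 (by
        rw [dec_cons_zero, part_cons]
        rintro ⟨-, h, -⟩
        omega)
    rw [dec_cons_zero, Fin.val_zero] at this
    simp only [hv, mul_zero, sum_const_zero, add_zero]
    rw [NB, this]
    split_ifs with h
    · obtain rfl : r = 0 := by omega
      simp
    · simp
  | succ L ih =>
    rw [NB_cons r (L + 1) _ _ ρ h1 hρ, cc_single, X_mul_NB]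
    simp only [hv, mul_zero, sum_const_zero, add_zero]
    rw [show ((L + 1 : ℕ) : ℤ) - 1 = L by push_cast; ring, ih (k + 1) (by omega) le_rfl, cc_single]
    by_cases h : r ≤ L
    · rw [if_pos h, if_pos h, if_pos (by omega), if_pos (by omega)]; ring
    · rw [if_neg h, if_neg h]
      by_cases h' : r ≤ L + 1
      · obtain rfl : r = L + 1 := by omega
        rw [if_pos h', if_pos h', ← mul_pow, mul_comm _ om, om_mul]
        simp
      · rw [if_neg h', if_neg h']; simp

/-- the value attached to a multiset of labels -/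
noncomputable def val (𝓜 : Multiset (ℕ × ℕ)) (κ : ℕ) (s : ℤ) (ρ : ℕ) : ℚ :=
  (𝓜.map fun p => (M2 κ (s - p.2 - if ρ ≤ p.1 then 1 else 0) : ℚ)).sum

theorem mmap_sum {ι β γ : Type} (s : Finset ι) (f : β → γ) (g : ι → Multiset β) :
    (∑ i ∈ s, g i).map f = ∑ i ∈ s, (g i).map f :=
  map_sum (Multiset.mapAddMonoidHom f) g s

theorem cc_two (r : ℕ) (L : ℤ) (μ : Fin k → ℤ) (hμ : Part μ) (hL : ∀ i, μ i ≤ L)
    (hs : 0 < ∑ i, μ i) : cc r (Fin.cons L μ : Fin (k + 1) → ℤ) 0 = 0 := by
  cases k with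
  | zero => simp at hs
  | succ k =>
    rw [cc, Multiset.replicate_zero, SS_two_rows, map_zero]
    · simpa using hL 0
    · by_contra hc
      have h0 : μ 0 ≤ 0 := by
        have : (Fin.cons L μ : Fin (k + 2) → ℤ) 1 = μ 0 := rfl
        omega
      have : ∑ i, μ i ≤ 0 := Finset.sum_nonpos fun i _ => (hμ.1 (Fin.zero_le i)).trans h0
      omega

theorem comb (κ : ℕ) : ∀ μ : Fin k → ℤ, Part μ → ∑ i, μ i = κ → ∃ 𝓜 : Multiset (ℕ × ℕ),
    (∀ p ∈ 𝓜, p.1 ≤ k ∧ (∀ i, μ i ≤ p.2 + 1) ∧ (p.1 = 0 → κ = 0)) ∧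
    ∀ r L : ℕ, 1 ≤ L → (∀ i, μ i ≤ L) → ∀ ρ, 1 ≤ ρ → ρ ≤ k + 1 →
      Top (NB r (L + κ + 1) (Fin.cons (L : ℤ) μ : Fin (k + 1) → ℤ) ρ) κ
        (val 𝓜 κ (L - max r 1) ρ) := by
  induction κ with
  | zero =>
    intro μ hμ hs
    obtain rfl : μ = 0 := by
      funext i
      exact (Finset.sum_eq_zero_iff_of_nonneg (fun i _ => hμ.2 i)).1 hs i (mem_univ i)
    refine ⟨{(0, 0)}, by simp, fun r L hL _ ρ h1 h2 => ?_⟩
    rw [add_zero, NB_single r L ρ h1 h2]
    have : val {(0, 0)} 0 (L - max r 1) ρ = if r ≤ L then 1 else 0 := by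
      simp only [val, Multiset.map_singleton, Multiset.sum_singleton, M2_zero]
      rw [if_neg (show ¬ ρ ≤ 0 by omega)]
      by_cases h : r ≤ L
      · rw [if_pos h, if_pos (by omega)]; simp
      · rw [if_neg h, if_neg (by omega)]; simp
    rw [this]
    split_ifs
    · exact ⟨fun b hb => by rw [coeff_one, if_neg (by omega)], by simp⟩
    · exact Top.zero 0
  | succ κ ih =>
    intro μ hμ hs
    have hj : ∀ j : Fin k, ∃ 𝓜 : Multiset (ℕ × ℕ),
        (∀ p ∈ 𝓜, p.1 ≤ k ∧ (∀ i, dec μ j i ≤ p.2 + 1) ∧ (p.1 = 0 → ∀ i, dec μ j i = 0)) ∧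
        ∀ r L : ℕ, 1 ≤ L → (∀ i, μ i ≤ L) →
          Top (NB r (L + κ + 1) (Fin.cons (L : ℤ) (dec μ j) : Fin (k + 1) → ℤ) (j + 1)) κ
            (val 𝓜 κ (L - max r 1) (j + 1)) := by
      intro j
      by_cases hp : Part (dec μ j)
      · have hs' : ∑ i, dec μ j i = κ := by rw [sum_dec, hs]; push_cast; ring
        obtain ⟨𝓜, h1, h2⟩ := ih (dec μ j) hp hs'
        refine ⟨𝓜, fun p hp' => ⟨(h1 p hp').1, (h1 p hp').2.1, fun h0 i => ?_⟩,
          fun r L hL hL' => h2 r L hL (fun i => ?_) _ (by omega) (by omega)⟩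
        · rw [(h1 p hp').2.2 h0] at hs'
          exact (Finset.sum_eq_zero_iff_of_nonneg (fun i _ => hp.2 i)).1 hs' i (mem_univ i)
        · have := hL' i
          by_cases hi : i = j
          · rw [hi, dec_self]; rw [hi] at this; omega
          · rwa [dec_ne μ hi]
      · refine ⟨0, by simp, fun r L hL hL' => ?_⟩
        have := BB_vanish r (Fin.cons (L : ℤ) μ : Fin (k + 1) → ℤ)
          (part_cons.2 ⟨hμ, by omega, hL'⟩) j.succ (by
            rw [dec_cons_succ, part_cons]
            exact fun h => hp h.1)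
        rw [dec_cons_succ, Fin.val_succ] at this
        rw [NB, this, mul_zero]
        exact Top.zero κ
    choose 𝓝 hN1 hN2 using hj
    let 𝓜 : Multiset (ℕ × ℕ) := ∑ j : Fin k, (𝓝 j).map fun p =>
      ((j : ℕ) + 1, p.2 + if (j : ℕ) + 1 ≤ p.1 then 1 else 0)
    have hM : ∀ p ∈ 𝓜, p.1 ≤ k ∧ (∀ i, μ i ≤ p.2 + 1) ∧ (p.1 = 0 → κ + 1 = 0) := by
      intro p hp
      simp only [𝓜, Multiset.mem_sum, Multiset.mem_map] at hp
      obtain ⟨j, -, q, hq, rfl⟩ := hp
      obtain ⟨h1, h2, h3⟩ := hN1 j q hq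
      refine ⟨j.2, fun i => ?_, fun h => by simp at h⟩
      by_cases hi : i = j
      · subst hi
        by_cases h0 : (i : ℕ) = 0
        · by_cases hq0 : q.1 = 0
          · have := h3 hq0 i
            rw [dec_self] at this
            push_cast
            split_ifs <;> omega
          · have := h2 i
            rw [dec_self] at this
            simp only
            rw [if_pos (by omega)]
            push_cast
            omega
        · let z : Fin k := ⟨0, by omega⟩
          have hz : z ≠ i := fun e => h0 (by rw [← e])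
          have := h2 z
          rw [dec_ne μ hz] at this
          have := hμ.1 (show z ≤ i from Fin.le_def.2 (Nat.zero_le _))
          push_cast
          split_ifs <;> omega
      · have := h2 i
        rw [dec_ne μ hi] at this
        push_cast
        split_ifs <;> omega
    have hpos : ∃ i, 1 ≤ μ i := by
      by_contra hc
      push Not at hc
      have : ∑ i, μ i ≤ 0 := Finset.sum_nonpos fun i _ => by have := hc i; omega
      omega
    have hval : ∀ (s : ℤ) (ρ : ℕ), val 𝓜 (κ + 1) s ρ = val 𝓜 (κ + 1) (s - 1) (k + 1) +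
        ∑ j : Fin k, if (j : ℕ) + 1 < ρ then val (𝓝 j) κ s (j + 1) else 0 := by
      intro s ρ
      simp only [val, 𝓜, mmap_sum, Multiset.sum_sum, Multiset.map_map, Function.comp_def]
      rw [← Finset.sum_add_distrib]
      apply Finset.sum_congr rfl
      intro j _
      have hjk : ¬ k + 1 ≤ (j : ℕ) + 1 := by have := j.2; omega
      simp only [if_neg hjk]
      by_cases h : (j : ℕ) + 1 < ρ
      · rw [if_pos h, ← Multiset.sum_map_add]
        simp only [if_neg (not_le.2 h)]
        congr 1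
        apply Multiset.map_congr rfl
        intro p _
        rw [M2_succ]
        push_cast
        rw [add_comm]
        congr 3 <;> ring
      · rw [if_neg h, add_zero]
        simp only [if_pos (not_lt.1 h)]
        congr 1
        apply Multiset.map_congr rfl
        intro p _
        congr 2
        ring
    refine ⟨𝓜, hM, fun r L => ?_⟩
    induction L with
    | zero => intro h; omega
    | succ L ihL =>
      intro hL hL' ρ h1 h2
      rw [NB_cons r _ _ _ ρ h1 h2, cc_two r _ μ hμ hL' (by omega), map_zero, mul_zero, zero_add,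
        hval]
      refine Top.add ?_ (Top.sum _ fun j _ => ?_)
      · rw [show ((L + 1 : ℕ) : ℤ) - 1 = L by push_cast; ring]
        by_cases hp : ∀ i, μ i ≤ L
        · rw [X_mul_NB, cc_two r _ μ hμ hp (by omega), map_zero, mul_zero, sub_zero]
          obtain ⟨i, hi⟩ := hpos
          have := ihL (by have := hp i; omega) hp (k + 1) (by omega) le_rfl
          convert this using 2
          · ring
          · push_cast; ring
        · have := BB_vanish r (Fin.cons ((L + 1 : ℕ) : ℤ) μ : Fin (k + 1) → ℤ)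
            (part_cons.2 ⟨hμ, by omega, hL'⟩) 0 (by
              rw [dec_cons_zero, part_cons]
              rintro ⟨-, -, h⟩
              exact hp fun i => by have := h i; push_cast at this; omega)
          rw [dec_cons_zero, Fin.val_zero, show ((L + 1 : ℕ) : ℤ) - 1 = L by push_cast; ring] at this
          rw [NB, this, mul_zero, mul_zero]
          convert Top.zero (κ + 1)
          push Not at hp
          obtain ⟨i, hi⟩ := hp
          apply Multiset.sum_eq_zero
          intro x hx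
          obtain ⟨p, hp, rfl⟩ := Multiset.mem_map.1 hx
          have := (hM p hp).2.1 i
          rw [M2_neg, Nat.cast_zero]
          split_ifs <;> omega
      · have := hN2 j r (L + 1) hL hL'
        rw [show L + 1 + (κ + 1) = L + 1 + κ + 1 by ring]
        split_ifs
        · exact this.X_mul
        · rw [one_mul]; exact this.lower

theorem coeff_one_sub_pow (h p : ℕ) :
    coeff p ((1 - X : PowerSeries ℚ) ^ h) = (-1) ^ p * (h.choose p : ℚ) := by
  induction h generalizing p with
  | zero => cases p <;> simp [coeff_one]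
  | succ h ih =>
    rw [pow_succ, mul_sub, mul_one, map_sub, ih]
    cases p with
    | zero => simp
    | succ p => rw [coeff_succ_mul_X, ih, Nat.choose_succ_succ]; push_cast; ring

/-- the final combinatorial formula -/
theorem comb_final (κ L : ℕ) (hL : 1 ≤ L) (μ : Fin k → ℤ) (hμ : Part μ) (hs : ∑ i, μ i = κ)
    (hL' : ∀ i, μ i ≤ L) : ∃ 𝓜 : Multiset ℕ, ∀ h r : ℕ, h + r = L + κ + 1 →
      ∑ i ∈ range (κ + 1), (-1) ^ (κ - i) * (h.choose (κ - i) : ℚ) *
        cc r (Fin.cons (L : ℤ) μ : Fin (k + 1) → ℤ) i =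
      (𝓜.map fun m : ℕ => (M2 κ (L - max r 1 - m) : ℚ)).sum := by
  obtain ⟨𝓜, h1, h2⟩ := comb κ μ hμ hs
  refine ⟨𝓜.map Prod.snd, fun h r hr => ?_⟩
  have h3 := (h2 r L hL hL' (k + 1) (by omega) le_rfl).2
  have h4 : (1 - X : PowerSeries ℚ) ^ (L + κ + 1) * om ^ r = (1 - X) ^ h := by
    rw [← hr, pow_add, mul_assoc, ← mul_pow, mul_comm _ om, om_mul, one_pow, mul_one]
  rw [NB, h4, BB_top, mul_comm, coeff_mul, Finset.Nat.sum_antidiagonal_eq_sum_range_succ_mk] at h3
  simp only [coeff_one_sub_pow, coeff_mk] at h3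
  rw [Multiset.map_map]
  refine Eq.trans (Finset.sum_congr rfl fun i _ => mul_comm _ _) (h3.trans ?_)
  unfold val
  congr 1
  apply Multiset.map_congr rfl
  intro p hp
  have := (h1 p hp).1
  rw [if_neg (by omega)]
  simp

end Pool.Agent.MP_8b9287_co

end

section

/-! Evaluation of the hyperplane contributions by Lagrange interpolation. -/

open Finset

namespace Pool.Agent.MP_8b9287_co

variable {α : Type} [DecidableEq α] {t : α → ℚ}

/-- divided difference -/
def DD (t : α → ℚ) (Y : Finset α) (a : α) (g : α → ℚ) : ℚ :=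
  g a * ∏ y ∈ Y, (t a - t y)⁻¹ -
    ∑ b ∈ Y, g b * ((t a - t b)⁻¹ * ∏ z ∈ Y.erase b, (t b - t z)⁻¹)

theorem DD_sum {ι : Type} (s : Finset ι) (Y : Finset α) (a : α) (g : ι → α → ℚ) :
    DD t Y a (fun b => ∑ i ∈ s, g i b) = ∑ i ∈ s, DD t Y a (g i) := by
  simp only [DD, Finset.sum_sub_distrib, Finset.sum_mul]
  rw [Finset.sum_comm]

theorem DD_mul (c : ℚ) (Y : Finset α) (a : α) (g : α → ℚ) :
    DD t Y a (fun b => c * g b) = c * DD t Y a g := by
  simp only [DD, mul_sub, Finset.mul_sum, mul_assoc]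

open Polynomial in
theorem DD_poly (ht : Function.Injective t) (Y : Finset α) {a : α} (ha : a ∉ Y) (φ : ℚ[X]) :
    DD t Y a (fun b => φ.eval (t b)) = (φ /ₘ Lagrange.nodal Y t).eval (t a) := by
  have hd := degree_modByMonic_lt φ (Lagrange.nodal_monic (s := Y) (v := t))
  rw [Lagrange.degree_nodal] at hd
  have h := Lagrange.coeff_eq_sum (s := insert a Y) (v := t) ht.injOn
    (P := φ %ₘ Lagrange.nodal Y t)
    (by rw [card_insert_of_notMem ha]; exact hd.trans (by exact_mod_cast Nat.lt_succ_self _))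
  rw [card_insert_of_notMem ha, Nat.add_sub_cancel, coeff_eq_zero_of_degree_lt hd,
    sum_insert ha, erase_insert ha, modByMonic_eq_sub_mul_div] at h
  have h2 : ∑ b ∈ Y, eval (t b) (φ - Lagrange.nodal Y t * (φ /ₘ Lagrange.nodal Y t)) /
      ∏ j ∈ (insert a Y).erase b, (t b - t j) =
      - ∑ b ∈ Y, φ.eval (t b) * ((t a - t b)⁻¹ * ∏ z ∈ Y.erase b, (t b - t z)⁻¹) := by
    rw [← Finset.sum_neg_distrib]
    apply Finset.sum_congr rfl
    intro b hb
    have hab : a ≠ b := fun e => ha (e ▸ hb)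
    rw [erase_insert_of_ne hab, prod_insert (fun h => ha (mem_of_mem_erase h)), eval_sub, eval_mul,
      Lagrange.eval_nodal_at_node hb, zero_mul, sub_zero, prod_inv_distrib, div_eq_mul_inv, mul_inv,
      ← neg_sub (t a), inv_neg]
    ring
  have h3 : ∏ y ∈ Y, (t a - t y) ≠ 0 :=
    prod_ne_zero_iff.2 fun y hy => sub_ne_zero.2 fun e => ha (ht e ▸ hy)
  rw [h2, eval_sub, eval_mul, Lagrange.eval_nodal, sub_div, mul_div_cancel_left₀ _ h3] at h
  rw [DD, prod_inv_distrib, ← div_eq_mul_inv]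
  linarith

/-- the interpolation functional -/
def Lam (t : α → ℚ) (H Y : Finset α) (P : α → α → ℚ) : ℚ :=
  ∑ a ∈ H, (∏ y ∈ H.erase a, (t a - t y)⁻¹) * DD t Y a (P a)

open Polynomial in
theorem Lam_mono (ht : Function.Injective t) {H Y : Finset α} (hH : H.Nonempty) (hd : Disjoint H Y)
    (p q : ℕ) (hpq : p + q + 1 ≤ H.card + Y.card) (c : ℚ) :
    Lam t H Y (fun a b => c * t a ^ p * t b ^ q) =
      if p + q + 1 = H.card + Y.card ∧ Y.card ≤ q then c else 0 := by
  let Q : ℚ[X] := X ^ q /ₘ Lagrange.nodal Y t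
  have h1 : Lam t H Y (fun a b => c * t a ^ p * t b ^ q) =
      c * ∑ a ∈ H, (X ^ p * Q).eval (t a) / ∏ y ∈ H.erase a, (t a - t y) := by
    rw [Lam, Finset.mul_sum]
    apply Finset.sum_congr rfl
    intro a ha
    have := DD_poly ht Y (disjoint_left.1 hd ha) (X ^ q)
    simp only [eval_pow, eval_X] at this
    rw [DD_mul, this, prod_inv_distrib, eval_mul, eval_pow, eval_X, div_eq_mul_inv]
    ring
  rw [h1]
  have hc := card_pos.2 hH
  by_cases hq : Y.card ≤ q
  · have hm : Q.Monic := by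
      rw [Monic, leadingCoeff_divByMonic_of_monic Lagrange.nodal_monic
        (by rw [Lagrange.degree_nodal, degree_X_pow]; exact_mod_cast hq), leadingCoeff_X_pow]
    have hn : (X ^ p * Q).natDegree = p + (q - Y.card) := by
      rw [(monic_X_pow p).natDegree_mul hm, natDegree_divByMonic _ Lagrange.nodal_monic,
        Lagrange.natDegree_nodal, natDegree_X_pow, natDegree_X_pow]
    have hm2 := (monic_X_pow p).mul hm
    rw [← Lagrange.coeff_eq_sum ht.injOn (by
      rw [degree_eq_natDegree hm2.ne_zero, hn]; exact_mod_cast (by omega))]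
    by_cases h : p + q + 1 = H.card + Y.card
    · rw [if_pos ⟨h, hq⟩, show H.card - 1 = (X ^ p * Q).natDegree by omega, hm2.coeff_natDegree,
        mul_one]
    · rw [if_neg (fun h' => h h'.1), coeff_eq_zero_of_natDegree_lt (by omega), mul_zero]
  · have : Q = 0 := by
      rw [divByMonic_eq_zero_iff Lagrange.nodal_monic, Lagrange.degree_nodal, degree_X_pow]
      exact_mod_cast (by omega)
    rw [if_neg (fun h' => hq h'.2), this]
    simp

theorem Lam_sum {ι : Type} (s : Finset ι) (H Y : Finset α) (P : ι → α → α → ℚ) :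
    Lam t H Y (fun a b => ∑ i ∈ s, P i a b) = ∑ i ∈ s, Lam t H Y (P i) := by
  simp only [Lam, DD_sum, Finset.mul_sum]
  rw [Finset.sum_comm]

open MvPolynomial in
theorem Lam_hom (ht : Function.Injective t) {H Y : Finset α} (hH : H.Nonempty) (hd : Disjoint H Y)
    (N : ℕ) (hN : N + 1 = H.card + Y.card) (P : MvPolynomial (Fin 3) ℚ) (hP : P.IsHomogeneous N) :
    Lam t H Y (fun a b => eval ![1, t a, t b] P) =
      tau Y.card (aeval ![0, 1, Polynomial.X] P) := by
  conv_lhs => rw [P.as_sum]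
  conv_rhs => rw [P.as_sum]
  simp only [map_sum]
  rw [Lam_sum]
  apply Finset.sum_congr rfl
  intro d hd'
  have h1 : d 0 + d 1 + d 2 = N := by
    by_contra hc
    apply mem_support_iff.1 hd'
    apply hP.coeff_eq_zero
    rwa [Finsupp.degree_eq_sum, Fin.sum_univ_three]
  simp only [eval_monomial, aeval_monomial, Finsupp.prod_fintype _ _ (fun _ => pow_zero _),
    Fin.prod_univ_three, Matrix.cons_val_zero, Matrix.cons_val_one, Matrix.cons_val, one_pow,
    one_mul, mul_one, ← mul_assoc]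
  rw [Lam_mono ht hH hd _ _ (by omega)]
  by_cases h0 : d 0 = 0
  · rw [h0, pow_zero, mul_one, Polynomial.algebraMap_apply, Polynomial.C_mul_X_pow_eq_monomial,
      tau_monomial]
    have : d 1 + d 2 + 1 = H.card + Y.card := by omega
    simp [this]
  · rw [if_neg (by omega), zero_pow h0]
    simp

open MvPolynomial in
theorem hZ_hom {σ : Type} (μ : Multiset (MvPolynomial σ ℚ)) (hμ : ∀ x ∈ μ, x.IsHomogeneous 1)
    (m : ℕ) : (hZ μ m).IsHomogeneous m := by
  induction μ using Multiset.induction_on generalizing m with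
  | empty =>
    simp only [hZ, Hs, Multiset.map_zero, Multiset.prod_zero, Nat.cast_nonneg, if_true,
      Int.toNat_natCast, PowerSeries.coeff_one]
    split_ifs with h
    · rw [h]; exact isHomogeneous_one _ _
    · exact isHomogeneous_zero _ _ _
  | cons x μ ih =>
    have ih' := ih fun y hy => hμ y (Multiset.mem_cons_of_mem hy)
    induction m with
    | zero =>
      rw [hZ_cons, hZ_neg (x ::ₘ μ) (by omega), mul_zero, add_zero]
      exact ih' 0
    | succ m ihm =>
      rw [hZ_cons, show ((m + 1 : ℕ) : ℤ) - 1 = m by push_cast; ring]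
      refine (ih' _).add ?_
      rw [add_comm]
      exact (hμ x (Multiset.mem_cons_self _ _)).mul ihm

open MvPolynomial in
theorem SS_hom {σ : Type} {k : ℕ} (ν : Fin k → ℤ) (N : ℕ) (hν : ∑ i, ν i = N)
    (μ : Multiset (MvPolynomial σ ℚ)) (hμ : ∀ x ∈ μ, x.IsHomogeneous 1) :
    (SS ν μ).IsHomogeneous N := by
  rw [SS, Matrix.det_apply']
  apply IsHomogeneous.sum
  intro π _
  rw [← map_intCast (C : ℚ →+* MvPolynomial σ ℚ)]
  apply IsHomogeneous.C_mul
  simp only [Matrix.of_apply]
  by_cases h : ∀ i, 0 ≤ ν (π i) - ((π i : Fin k) : ℕ) + (i : ℕ)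
  · have h1 : N = ∑ i, (ν (π i) - ((π i : Fin k) : ℕ) + (i : ℕ)).toNat := by
      have : ((∑ i, (ν (π i) - ((π i : Fin k) : ℕ) + (i : ℕ)).toNat : ℕ) : ℤ) = N := by
        push_cast
        rw [Finset.sum_congr rfl fun i _ => Int.toNat_of_nonneg (h i), Finset.sum_add_distrib,
          Finset.sum_sub_distrib, Equiv.sum_comp π ν,
          Equiv.sum_comp π (fun i : Fin k => ((i : ℕ) : ℤ)), hν]
        ring
      exact_mod_cast this.symm
    rw [h1]
    apply IsHomogeneous.prod
    intro i _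
    have := hZ_hom μ hμ (ν (π i) - ((π i : Fin k) : ℕ) + (i : ℕ)).toNat
    rwa [Int.toNat_of_nonneg (h i)] at this
  · push Not at h
    obtain ⟨i, hi⟩ := h
    rw [Finset.prod_eq_zero (mem_univ i) (hZ_neg _ hi)]
    exact isHomogeneous_zero _ _ _

theorem sum_pc_insert {a : α} {s : Finset α} (ha : a ∉ s) (j : ℕ) (G : Finset α → ℚ) :
    ∑ J ∈ powersetCard (j + 1) (insert a s), G J =
      ∑ I ∈ powersetCard (j + 1) s, G I + ∑ I ∈ powersetCard j s, G (insert a I) := by
  rw [powersetCard_succ_insert ha, sum_union, sum_image]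
  · intro I hI J hJ h
    have h1 : a ∉ I := fun h => ha ((mem_powersetCard.1 hI).1 h)
    have h2 : a ∉ J := fun h => ha ((mem_powersetCard.1 hJ).1 h)
    rw [← erase_insert h1, h, erase_insert h2]
  · rw [disjoint_left]
    intro I hI hI'
    obtain ⟨J, -, rfl⟩ := mem_image.1 hI'
    exact ha ((mem_powersetCard.1 hI).1 (mem_insert_self _ _))

theorem incl_excl {H : Finset α} {a : α} (ha : a ∈ H) (j : ℕ) (G : Multiset ℚ → ℚ) :
    ∑ I ∈ powersetCard j (H.erase a), G (I.val.map t) = ∑ i ∈ range (j + 1), (-1) ^ i *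
      ∑ J ∈ powersetCard (j - i) H, G (Multiset.replicate i (t a) + J.val.map t) := by
  induction j generalizing G with
  | zero => simp
  | succ j ih =>
    have h := sum_pc_insert (notMem_erase a H) j (fun I => G (I.val.map t))
    rw [insert_erase ha] at h
    have h2 : ∑ I ∈ powersetCard j (H.erase a), G ((insert a I).val.map t) =
        ∑ I ∈ powersetCard j (H.erase a), G (t a ::ₘ I.val.map t) := by
      apply Finset.sum_congr rfl
      intro I hI
      have h1 : a ∉ I := fun h => notMem_erase a H ((mem_powersetCard.1 hI).1 h)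
      rw [insert_val_of_notMem h1, Multiset.map_cons]
    rw [h2, ih (fun m => G (t a ::ₘ m))] at h
    rw [sum_range_succ']
    simp only [Nat.add_sub_add_right, pow_zero, one_mul, Nat.sub_zero, Multiset.replicate_zero,
      zero_add, Multiset.replicate_succ, Multiset.cons_add, pow_succ, mul_neg_one, neg_mul,
      Finset.sum_neg_distrib]
    linarith

/-- the contribution of a flat -/
noncomputable def CH {k : ℕ} (t : α → ℚ) (ν : Fin k → ℤ) (κ : ℕ) (H Y : Finset α) : ℚ :=
  (-1) ^ κ * ∑ a ∈ H, (∏ y ∈ H.erase a, (t a - t y)⁻¹) *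
    ∑ I ∈ powersetCard κ (H.erase a), DD t Y a (fun b => SS ν (t b ::ₘ I.val.map t))

open MvPolynomial in
theorem CH_eq {k : ℕ} (ht : Function.Injective t) (ν : Fin k → ℤ) (N : ℕ) (hν : ∑ i, ν i = N)
    (κ : ℕ) {H Y : Finset α} (hH : H.Nonempty) (hd : Disjoint H Y)
    (hN : N + 1 = H.card + Y.card) :
    CH t ν κ H Y = ∑ i ∈ range (κ + 1), (-1) ^ (κ - i) * (H.card.choose (κ - i) : ℚ) *
      cc Y.card ν i := by
  have h1 : ∀ a ∈ H, (∏ y ∈ H.erase a, (t a - t y)⁻¹) *
      ∑ I ∈ powersetCard κ (H.erase a), DD t Y a (fun b => SS ν (t b ::ₘ I.val.map t)) =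
      ∑ i ∈ range (κ + 1), (-1) ^ i * ∑ J ∈ powersetCard (κ - i) H,
        (∏ y ∈ H.erase a, (t a - t y)⁻¹) * DD t Y a
          (fun b => SS ν (t b ::ₘ (Multiset.replicate i (t a) + J.val.map t))) := by
    intro a ha
    rw [incl_excl ha κ (fun m => DD t Y a (fun b => SS ν (t b ::ₘ m))), Finset.mul_sum]
    apply Finset.sum_congr rfl
    intro i _
    rw [← Finset.mul_sum]
    ring
  rw [CH, Finset.sum_congr rfl h1, Finset.sum_comm, Finset.mul_sum]
  apply Finset.sum_congr rfl
  intro i hi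
  rw [← Finset.mul_sum, Finset.sum_comm]
  have h2 : ∀ J ∈ powersetCard (κ - i) H, ∑ a ∈ H, (∏ y ∈ H.erase a, (t a - t y)⁻¹) * DD t Y a
      (fun b => SS ν (t b ::ₘ (Multiset.replicate i (t a) + J.val.map t))) = cc Y.card ν i := by
    intro J _
    let P : MvPolynomial (Fin 3) ℚ :=
      SS ν (X 2 ::ₘ (Multiset.replicate i (X 1) + J.val.map fun j => C (t j) * X 0))
    have hP : P.IsHomogeneous N := by
      apply SS_hom ν N hν
      intro x hx
      simp only [Multiset.mem_cons, Multiset.mem_add, Multiset.mem_replicate,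
        Multiset.mem_map] at hx
      rcases hx with rfl | ⟨-, rfl⟩ | ⟨j, -, rfl⟩
      · exact isHomogeneous_X _ _
      · exact isHomogeneous_X _ _
      · exact isHomogeneous_C_mul_X _ _
    have h3 := Lam_hom ht hH hd N hN P hP
    have h4 : ∀ a b, eval ![1, t a, t b] P =
        SS ν (t b ::ₘ (Multiset.replicate i (t a) + J.val.map t)) := by
      intro a b
      simp [P, map_SS]
    have h5 : aeval ![0, 1, (Polynomial.X : Polynomial ℚ)] P =
        SS ν (Polynomial.X ::ₘ Multiset.replicate i 1) := by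
      rw [← SS_replicate_zero ν J.card]
      have := map_SS (aeval ![0, 1, (Polynomial.X : Polynomial ℚ)] :
        MvPolynomial (Fin 3) ℚ →ₐ[ℚ] Polynomial ℚ).toRingHom ν
        (X 2 ::ₘ (Multiset.replicate i (X 1) + J.val.map fun j => C (t j) * X 0))
      refine this.trans ?_
      congr 1
      simp [add_comm]
    simp only [h4, h5] at h3
    exact h3
  rw [Finset.sum_congr rfl h2, sum_const, card_powersetCard, nsmul_eq_mul]
  have h3 : (-1 : ℚ) ^ κ * (-1) ^ i = (-1) ^ (κ - i) := by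
    have := mem_range.1 hi
    rw [show κ = (κ - i) + i by omega, pow_add, mul_assoc, ← mul_pow, Nat.add_sub_cancel]
    simp
  rw [← h3]
  ring

end Pool.Agent.MP_8b9287_co

end

section

/-! The matroid part. -/

open Finset

namespace Pool.Agent.MP_8b9287_co

section lists
variable {α : Type} [DecidableEq α]

theorem idx1 {A B : List α} {x e : α} (hx : x ∈ A) (he : e ∉ A) :
    (A ++ B).idxOf x < (A ++ B).idxOf e := by
  rw [List.idxOf_append_of_mem hx, List.idxOf_append_of_notMem he]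
  have := List.idxOf_lt_length_of_mem hx
  omega

theorem idx2 {A B : List α} {x e : α} (he : e ∈ A) (h : (A ++ B).idxOf x < (A ++ B).idxOf e) :
    x ∈ A ∧ x ≠ e := by
  refine ⟨?_, fun h' => by rw [h'] at h; exact lt_irrefl _ h⟩
  by_contra hx
  exact lt_asymm h (idx1 he hx)

theorem fo_spec (Y : Finset α) (d : α) (w : List α) (h : ∃ x ∈ w, x ∈ Y) :
    ∃ w1 w2, w = w1 ++ fo Y d w :: w2 ∧ (∀ x ∈ w1, x ∉ Y) ∧ fo Y d w ∈ Y := by
  induction w with
  | nil => simp at h
  | cons c w ih =>
    by_cases hc : c ∈ Y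
    · exact ⟨[], w, by simp [fo, hc], by simp, by simp [fo, hc]⟩
    · obtain ⟨x, hx, hx'⟩ := h
      obtain ⟨w1, w2, h1, h2, h3⟩ := ih ⟨x, (List.mem_cons.1 hx).resolve_left
        (fun e => hc (e ▸ hx')), hx'⟩
      refine ⟨c :: w1, w2, ?_, ?_, ?_⟩
      · simp only [fo, if_neg hc, List.cons_append]; rw [← h1]
      · intro y hy
        rcases List.mem_cons.1 hy with rfl | hy
        · exact hc
        · exact h2 y hy
      · simpa only [fo, if_neg hc] using h3

end lists

variable {n : ℕ}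

open Classical in
/-- the lexicographically first basis of a list -/
noncomputable def LB (M : Matroid (Fin n)) (l : List (Fin n)) : Finset (Fin n) :=
  Finset.univ.filter fun e => e ∉ M.closure {x | l.idxOf x < l.idxOf e}

theorem idxOf_ofFn (σ : Equiv.Perm (Fin n)) (x : Fin n) :
    (List.ofFn σ).idxOf x = (σ.symm x : ℕ) := by
  have h := (List.nodup_ofFn.2 σ.injective).idxOf_getElem (i := σ.symm x) (by simp)
  simpa using h

theorem lexBasis_eq (M : Matroid (Fin n)) (σ : Equiv.Perm (Fin n)) :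
    lexBasis M σ = LB M (List.ofFn σ) := by
  have : ∀ e, {x | σ.symm x < σ.symm e} =
      {x | (List.ofFn σ).idxOf x < (List.ofFn σ).idxOf e} := by
    intro e
    ext x
    simp only [Set.mem_ofPred_eq]
    rw [idxOf_ofFn, idxOf_ofFn, Fin.lt_def]
  ext e
  simp only [lexBasis, LB, mem_filter, mem_univ, true_and]
  rw [this]

open Classical in
/-- closure as a finite set -/
noncomputable def cl (M : Matroid (Fin n)) (I : Finset (Fin n)) : Finset (Fin n) :=
  Finset.univ.filter fun e => e ∈ M.closure (I : Set (Fin n))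

theorem mem_cl {M : Matroid (Fin n)} {I : Finset (Fin n)} {e : Fin n} :
    e ∈ cl M I ↔ e ∈ M.closure (I : Set (Fin n)) := by simp [cl]

/-- the paving hypotheses -/
structure Pav (M : Matroid (Fin n)) (κ : ℕ) : Prop where
  hE : M.E = Set.univ
  hr : M.eRank = (κ + 1 : ℕ)
  hi : ∀ I : Finset (Fin n), I.card = κ → M.Indep (I : Set (Fin n))

variable {M : Matroid (Fin n)} {κ : ℕ}

theorem Pav.subset_cl (h : Pav M κ) (I : Finset (Fin n)) : I ⊆ cl M I := fun _ hx =>
  mem_cl.2 (M.subset_closure _ (by rw [h.hE]; exact Set.subset_univ _) hx)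

theorem Pav.eRk (h : Pav M κ) {I : Finset (Fin n)} (hI : I.card = κ) :
    M.eRk (I : Set (Fin n)) = κ := by
  rw [(h.hi I hI).eRk_eq_encard, Set.encard_coe_eq_coe_finsetCard, hI]

theorem Pav.cl_ne (h : Pav M κ) {I : Finset (Fin n)} (hI : I.card = κ) : ∃ x, x ∉ cl M I := by
  by_contra hc
  push Not at hc
  have h1 : M.closure (I : Set (Fin n)) = M.E := by
    rw [h.hE]; exact Set.eq_univ_of_forall fun x => mem_cl.1 (hc x)
  have h2 := M.eRk_closure_eq (I : Set (Fin n))
  rw [h1, Matroid.eRk_ground, h.hr, h.eRk hI] at h2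
  have : κ + 1 = κ := by exact_mod_cast h2
  omega

theorem Pav.cl_eq (h : Pav M κ) {I J : Finset (Fin n)} (hI : I.card = κ) (hJ : J.card = κ)
    (hJI : J ⊆ cl M I) : cl M J = cl M I := by
  have := (M.isRkFinite_of_finite (J.finite_toSet)).closure_eq_closure_of_subset_of_eRk_ge_eRk
    (Y := M.closure (I : Set (Fin n))) (fun x hx => mem_cl.1 (hJI hx))
    (by rw [Matroid.eRk_closure_eq, h.eRk hI, h.eRk hJ])
  rw [Matroid.closure_closure] at this
  ext x
  rw [mem_cl, mem_cl, this]

theorem Pav.span (h : Pav M κ) {I : Finset (Fin n)} (hI : I.card = κ) {b : Fin n}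
    (hb : b ∉ cl M I) (e : Fin n) : e ∈ M.closure (insert b (I : Set (Fin n))) := by
  have hbI : b ∉ I := fun h' => hb (h.subset_cl I h')
  have h1 : M.Indep (insert b (I : Set (Fin n))) := by
    rw [(h.hi I hI).insert_indep_iff_of_notMem (by simpa using hbI), h.hE]
    exact ⟨Set.mem_univ _, fun h' => hb (mem_cl.2 h')⟩
  have := (M.isRkFinite_of_finite (Set.toFinite (insert b (I : Set (Fin n))))
    ).closure_eq_closure_of_subset_of_eRk_ge_eRk (Y := M.E) h1.subset_ground (by
      rw [Matroid.eRk_ground, h.hr, h1.eRk_eq_encard,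
        Set.encard_insert_of_notMem (by simpa using hbI), Set.encard_coe_eq_coe_finsetCard, hI]
      exact le_of_eq (by push_cast; rfl))
  rw [this, Matroid.closure_ground, h.hE]
  exact Set.mem_univ _

theorem Pav.LB_eq (h : Pav M κ) {I : Finset (Fin n)} (hI : I.card = κ) {u w : List (Fin n)}
    (hu : u ∈ ords I) (hw : w ∈ ords (univ \ I)) (d : Fin n) :
    (LB M (u ++ w)).val = fo (univ \ cl M I) d w ::ₘ I.val := by
  obtain ⟨hu1, hu2⟩ := mem_ords.1 hu
  obtain ⟨hw1, hw2⟩ := mem_ords.1 hw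
  have hu3 : ∀ x, x ∈ u ↔ x ∈ I := fun x => by rw [← hu2, List.mem_toFinset]
  have hw3 : ∀ x, x ∈ w ↔ x ∉ I := fun x => by rw [← List.mem_toFinset, hw2]; simp
  obtain ⟨x0, hx0⟩ := h.cl_ne hI
  obtain ⟨w1, w2, h1, h2, h3⟩ := fo_spec (univ \ cl M I) d w
    ⟨x0, (hw3 _).2 fun h' => hx0 (h.subset_cl I h'), by simpa using hx0⟩
  generalize fo (univ \ cl M I) d w = b at h1 h3 ⊢
  have hb : b ∉ cl M I := (mem_sdiff.1 h3).2
  have hbI : b ∉ I := fun h' => hb (h.subset_cl I h')
  have h2' : ∀ x ∈ w1, x ∈ cl M I := fun x hx => by simpa using h2 x hx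
  rw [← insert_val_of_notMem hbI]
  congr 1
  ext e
  simp only [LB, mem_filter, mem_univ, true_and, mem_insert]
  by_cases he : e ∈ I
  · refine iff_of_true (fun hc => ?_) (Or.inr he)
    apply (h.hi I hI).notMem_closure_sdiff_of_mem (e := e) (by simpa using he)
    refine M.closure_subset_closure (fun x hx => ?_) hc
    have := idx2 ((hu3 e).2 he) hx
    exact ⟨by simpa using (hu3 x).1 this.1, this.2⟩
  · by_cases heb : e = b
    · subst heb
      refine iff_of_true (fun hc => hb (mem_cl.2 ?_)) (Or.inl rfl)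
      refine M.closure_subset_closure_of_subset_closure (fun x hx => ?_) hc
      have e1 : u ++ w = (u ++ w1 ++ [e]) ++ w2 := by rw [h1]; simp
      rw [e1] at hx
      obtain ⟨h4, h5⟩ := idx2 (by simp) hx
      simp only [List.mem_append, List.mem_singleton] at h4
      rcases h4 with (h4 | h4) | h4
      · exact mem_cl.1 (h.subset_cl I ((hu3 x).1 h4))
      · exact mem_cl.1 (h2' x h4)
      · exact absurd h4 h5
    · refine iff_of_false (not_not.2 ?_) (by tauto)
      by_cases he1 : e ∈ w1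
      · refine M.closure_subset_closure (fun x hx => ?_) (mem_cl.1 (h2' e he1))
        exact idx1 ((hu3 x).2 (by simpa using hx)) (fun h' => he ((hu3 e).1 h'))
      · refine M.closure_subset_closure (fun x hx => ?_) (h.span hI hb e)
        have e1 : u ++ w = (u ++ w1 ++ [b]) ++ w2 := by rw [h1]; simp
        rw [e1]
        apply idx1
        · rcases hx with rfl | hx
          · simp
          · simp [(hu3 x).2 (by simpa using hx)]
        · simp only [List.mem_append, List.mem_singleton, not_or]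
          exact ⟨⟨fun h' => he ((hu3 e).1 h'), he1⟩, heb⟩

theorem schur_eq {k : ℕ} (η : Fin k → ℕ) (t : Fin n → ℚ) (B : Finset (Fin n)) :
    schur η t B = SS (fun i => (η i : ℤ)) (B.val.map t) := by
  simp only [schur, SS, hsym, hZ, Hs, Multiset.map_map]
  rfl

theorem swap_sum {α : Type} [DecidableEq α] (H : Finset α) (f : Finset α → α → ℚ) :
    ∑ I ∈ powersetCard κ H, ∑ a ∈ H \ I, f I a =
      ∑ a ∈ H, ∑ I ∈ powersetCard κ (H.erase a), f I a := by
  apply Finset.sum_comm'
  intro I a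
  simp only [mem_powersetCard, mem_sdiff, subset_erase]
  tauto

theorem prod_split {α : Type} [DecidableEq α] (t : α → ℚ) {I H : Finset α} (hI : I ⊆ H) {a : α}
    (ha : a ∉ I) : (∏ y ∈ I, (t y - t a)⁻¹) * ∏ y ∈ (H \ I).erase a, (t a - t y)⁻¹ =
      (-1) ^ I.card * ∏ y ∈ H.erase a, (t a - t y)⁻¹ := by
  rw [← prod_sdiff (show I ⊆ H.erase a from subset_erase.2 ⟨hI, ha⟩), erase_sdiff_comm,
    ← prod_const, mul_comm, mul_left_comm, ← prod_mul_distrib]
  congr 1
  apply Finset.prod_congr rfl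
  intro y _
  rw [← neg_sub, inv_neg, neg_one_mul]

theorem Pav.term (h : Pav M κ) {t : Fin n → ℚ} (ht : Function.Injective t) {I : Finset (Fin n)}
    (hI : I.card = κ) (G : Multiset ℚ → ℚ) :
    ∑ u ∈ ords I, ∑ w ∈ ords (univ \ I), wt t (u ++ w) * G ((LB M (u ++ w)).val.map t) =
      ∑ a ∈ univ \ I, (-1) ^ κ * ((∏ y ∈ univ.erase a, (t a - t y)⁻¹) *
        DD t ∅ a fun b => G (t b ::ₘ I.val.map t)) -
      ∑ a ∈ cl M I \ I, (-1) ^ κ * ((∏ y ∈ (cl M I).erase a, (t a - t y)⁻¹) *
        DD t (univ \ cl M I) a fun b => G (t b ::ₘ I.val.map t)) := by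
  obtain ⟨d, hd⟩ := h.cl_ne hI
  have hIH := h.subset_cl I
  have hL := fun u w hu hw => h.LB_eq hI (u := u) (w := w) hu hw d
  generalize cl M I = H at hd hIH hL ⊢
  let g : Fin n → ℚ := fun b => G (t b ::ₘ I.val.map t)
  have e1 : ∑ u ∈ ords I, ∑ w ∈ ords (univ \ I), wt t (u ++ w) * G ((LB M (u ++ w)).val.map t) =
      ∑ a ∈ univ \ I, (∏ y ∈ I, (t y - t a)⁻¹) *
        ∑ v ∈ ords ((univ \ I).erase a), wt t (a :: v) * g (fo (univ \ H) d (a :: v)) := by
    rw [Finset.sum_congr rfl fun u hu => Finset.sum_congr rfl fun w hw => by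
      rw [hL u w hu hw, Multiset.map_cons]]
    rw [Finset.sum_comm, sum_ords_cons _ ⟨d, by simpa using fun h' => hd (hIH h')⟩]
    apply Finset.sum_congr rfl
    intro a ha
    rw [Finset.mul_sum]
    apply Finset.sum_congr rfl
    intro v _
    rw [← star_sum' ht I (mem_sdiff.1 ha).2, Finset.sum_mul]
    apply Finset.sum_congr rfl
    intro u _
    rw [wt_append, mul_assoc]
  have hsub : H \ I ⊆ univ \ I := sdiff_subset_sdiff (subset_univ _) Subset.rfl
  rw [e1, ← sum_sdiff hsub, ← sum_sdiff hsub, add_sub_assoc, ← sum_sub_distrib]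
  congr 1
  · apply Finset.sum_congr rfl
    intro a ha
    have ha1 : a ∉ I := (mem_sdiff.1 (mem_sdiff.1 ha).1).2
    have ha2 : a ∈ univ \ H := by
      simp only [mem_sdiff, mem_univ, true_and] at ha ⊢
      tauto
    simp only [fo, if_pos ha2]
    rw [← Finset.sum_mul, star_sum ht _ (notMem_erase a _), ← mul_assoc,
      prod_split t (subset_univ I) ha1, hI]
    simp [DD, g, mul_assoc]
  · apply Finset.sum_congr rfl
    intro a ha
    obtain ⟨ha1, ha2⟩ := mem_sdiff.1 ha
    have ha3 : a ∉ univ \ H := by simp [ha1]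
    simp only [fo, if_neg ha3]
    rw [tree_sum ht (univ \ H) ⟨d, by simpa using hd⟩ d g _ (by
      intro y hy
      simp only [mem_sdiff, mem_univ, true_and, mem_erase] at hy ⊢
      exact ⟨fun e => hy (e ▸ ha1), fun h' => hy (hIH h')⟩) (notMem_erase a _)]
    have e2 : (univ \ I).erase a \ (univ \ H) = (H \ I).erase a := by
      ext y; simp only [mem_sdiff, mem_erase, mem_univ, true_and]; tauto
    have e3 : ∏ y ∈ univ.erase a, (t a - t y)⁻¹ =
        (∏ y ∈ H.erase a, (t a - t y)⁻¹) * ∏ y ∈ univ \ H, (t a - t y)⁻¹ := by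
      rw [← prod_sdiff (erase_subset_erase a (subset_univ H)), mul_comm]
      congr 2
      ext y
      simp only [mem_sdiff, mem_erase, mem_univ, true_and, and_true]
      constructor
      · tauto
      · intro hy
        exact ⟨fun e => hy (e ▸ ha1), fun h' => hy h'.2⟩
    rw [e2, ← mul_assoc, prod_split t hIH ha2, hI, e3]
    simp only [DD, g, prod_empty, sum_empty]
    ring

theorem Pav.total {N k : ℕ} {M : Matroid (Fin (N + 1))} (h : Pav M κ) (hκ : κ ≤ N + 1)
    (η : Fin k → ℕ) {t : Fin (N + 1) → ℚ} (ht : Function.Injective t) :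
    locSum M η t = CH t (fun i => (η i : ℤ)) κ univ ∅ -
      ∑ H ∈ (powersetCard κ univ).image (cl M), CH t (fun i => (η i : ℤ)) κ H (univ \ H) := by
  have e1 : locSum M η t = ∑ l ∈ ords univ,
      wt t l * SS (fun i => (η i : ℤ)) ((LB M l).val.map t) := by
    rw [← sum_perm_eq, locSum]
    apply Finset.sum_congr rfl
    intro σ _
    rw [wt_ofFn, lexBasis_eq, schur_eq, div_eq_mul_inv, mul_comm]
  rw [e1, sum_ords_split univ κ (by simpa using hκ),
    Finset.sum_congr rfl fun I hI => h.term ht (mem_powersetCard.1 hI).2 (SS fun i => (η i : ℤ)),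
    sum_sub_distrib]
  congr 1
  · rw [swap_sum, CH]
    simp only [Finset.mul_sum]
  · rw [← sum_fiberwise_of_maps_to (g := cl M) (fun I hI => mem_image_of_mem (cl M) hI)]
    apply Finset.sum_congr rfl
    intro H hH
    obtain ⟨I0, hI0, rfl⟩ := mem_image.1 hH
    have hI0' := (mem_powersetCard.1 hI0).2
    have e2 : (powersetCard κ univ).filter (fun I => cl M I = cl M I0) =
        powersetCard κ (cl M I0) := by
      ext I
      simp only [mem_filter, mem_powersetCard, subset_univ, true_and]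
      constructor
      · rintro ⟨h1, h2⟩
        exact ⟨h2 ▸ h.subset_cl I, h1⟩
      · rintro ⟨h1, h2⟩
        exact ⟨h2, h.cl_eq hI0' h2 h1⟩
    rw [Finset.sum_congr rfl fun I hI => by rw [(mem_filter.1 hI).2], e2, swap_sum, CH]
    simp only [Finset.mul_sum]

theorem main_paving {N κ : ℕ} (hκ : κ < N) {M : Matroid (Fin (N + 1))} (h : Pav M κ)
    (η : Fin (κ + 1) → ℕ) (hη : Antitone η) (h0 : η 0 = N - κ) (hs : ∑ i, η i = N) :
    ∃ d : ℕ, ∀ t : Fin (N + 1) → ℚ, Function.Injective t → locSum M η t = d := by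
  let μ : Fin κ → ℤ := fun i => η i.succ
  have hν : (fun i => (η i : ℤ)) = Fin.cons ((N - κ : ℕ) : ℤ) μ := by
    funext i
    rcases Fin.eq_zero_or_eq_succ i with rfl | ⟨i, rfl⟩
    · simp [h0]
    · simp [μ]
  have hs' : ∑ i, (η i : ℤ) = N := by exact_mod_cast hs
  have hμ : ∑ i, μ i = κ := by
    rw [Fin.sum_univ_succ, h0] at hs'
    simp only [μ]
    omega
  obtain ⟨𝓜, h𝓜⟩ := comb_final κ (N - κ) (by omega) μ
    ⟨fun i j hij => by simpa [μ] using hη (Fin.succ_le_succ_iff.2 hij), fun i => by simp [μ]⟩ hμ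
    (fun i => by rw [← h0]; simpa [μ] using hη (Fin.zero_le i.succ))
  let 𝓗 := (powersetCard κ univ).image (cl M)
  have hlt : ∀ H ∈ 𝓗, H.card < N + 1 := by
    intro H hH
    obtain ⟨I, hI, rfl⟩ := mem_image.1 hH
    obtain ⟨x, hx⟩ := h.cl_ne (mem_powersetCard.1 hI).2
    have := card_lt_card (show cl M I ⊂ univ from
      ⟨subset_univ _, fun h' => hx (h' (mem_univ x))⟩)
    simpa using this
  have hp : ∀ m : ℕ, ∑ H ∈ 𝓗, M2 κ ((H.card : ℤ) - (κ + 1) - m) ≤ M2 κ (N - (κ + 1) - m) := by
    intro m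
    have := pack (m : ℤ) (by omega) (N + 1) (univ : Finset (Fin (N + 1))) (by simp) κ 𝓗 id
      (fun H hH => ⟨subset_univ _, by simpa using hlt H hH⟩) (by
        intro H hH H' hH' hne
        by_contra hc
        obtain ⟨J, hJ, hJ'⟩ := exists_subset_card_eq (s := H ∩ H') (n := κ) (by
          simp only [id] at hc; omega)
        obtain ⟨I, hI, rfl⟩ := mem_image.1 hH
        obtain ⟨I', hI', rfl⟩ := mem_image.1 hH'
        exact hne ((h.cl_eq (mem_powersetCard.1 hI).2 hJ' (hJ.trans inter_subset_left)).symm.trans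
          (h.cl_eq (mem_powersetCard.1 hI').2 hJ' (hJ.trans inter_subset_right))))
    simpa using this
  refine ⟨(𝓜.map fun m : ℕ => M2 κ (N - (κ + 1) - m) -
    ∑ H ∈ 𝓗, M2 κ ((H.card : ℤ) - (κ + 1) - m)).sum, fun t ht => ?_⟩
  have e1 : CH t (fun i => (η i : ℤ)) κ univ ∅ =
      (𝓜.map fun m : ℕ => (M2 κ (N - (κ + 1) - m) : ℚ)).sum := by
    rw [CH_eq ht _ N hs' κ univ_nonempty (disjoint_empty_right _) (by simp), hν,
      h𝓜 _ _ (by simp; omega)]
    congr 1
    apply Multiset.map_congr rfl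
    intro m _
    congr 2
    simp only [card_empty]
    omega
  have e2 : ∀ H ∈ 𝓗, CH t (fun i => (η i : ℤ)) κ H (univ \ H) =
      (𝓜.map fun m : ℕ => (M2 κ ((H.card : ℤ) - (κ + 1) - m) : ℚ)).sum := by
    intro H hH
    have hc : (univ \ H).card = N + 1 - H.card := by
      rw [card_sdiff_of_subset (subset_univ _)]; simp
    have := hlt H hH
    rcases H.eq_empty_or_nonempty with rfl | hne
    · rw [CH, sum_empty, mul_zero, Multiset.sum_eq_zero]
      intro x hx
      obtain ⟨m, -, rfl⟩ := Multiset.mem_map.1 hx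
      rw [M2_neg _ (by simp only [card_empty]; omega), Nat.cast_zero]
    · rw [CH_eq ht _ N hs' κ hne disjoint_sdiff (by omega), hν, h𝓜 _ _ (by omega)]
      congr 1
      apply Multiset.map_congr rfl
      intro m _
      congr 2
      omega
  rw [h.total (by omega) η ht, e1, Finset.sum_congr rfl e2, Nat.cast_multiset_sum,
    Multiset.map_map]
  simp only [Function.comp_def, Nat.cast_sub (hp _), Nat.cast_sum]
  rw [Multiset.sum_map_sub]
  congr 1
  exact Multiset.sum_map_sum.symm

end Pool.Agent.MP_8b9287_co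

end
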